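import Pool.Agent.Helper98.LP.Defs

/-! Module A: basic facts on Laurent subrings of a field. -/

open MvPolynomial

namespace Pool.Agent.Helper98.LP

variable {R : Type*} [CommRing R] {n : ℕ} {K : Type*} [Field K] [Algebra R K]

theorem mem_Laur (w : Fin n → K) (k : Fin n) : w k ∈ Laur R w :=
  Algebra.subset_adjoin (Or.inl ⟨k, rfl⟩)

theorem inv_mem_Laur (w : Fin n → K) (k : Fin n) : (w k)⁻¹ ∈ Laur R w :=
  Algebra.subset_adjoin (Or.inr ⟨k, rfl⟩)

theorem zpow_mem_of_mem {S : Subalgebra R K} {f : K} (h : f ∈ S) (h' : f⁻¹ ∈ S) (m : ℤ) :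
    f ^ m ∈ S := by
  obtain ⟨k, rfl | rfl⟩ := m.eq_nat_or_neg
  · rw [zpow_natCast]; exact pow_mem h k
  · rw [zpow_neg, zpow_natCast, ← inv_pow]; exact pow_mem h' k

theorem Laur_le {w : Fin n → K} {S : Subalgebra R K} (h : ∀ k, w k ∈ S)
    (h' : ∀ k, (w k)⁻¹ ∈ S) : Laur R w ≤ S := by
  refine Algebra.adjoin_le ?_
  rintro f (⟨k, rfl⟩ | ⟨k, rfl⟩)
  · exact h k
  · exact h' k

/-- a polynomial evaluated at elements of `S` lies in `S` -/
theorem aeval_mem_of_vars {S : Subalgebra R K} {w : Fin n → K} {P : MvPolynomial (Fin n) R}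
    (h : ∀ k ∈ P.vars, w k ∈ S) : aeval w P ∈ S := by
  have h1 : P ∈ supported R (P.vars : Set (Fin n)) := mem_supported.2 (subset_refl _)
  rw [supported_eq_adjoin_X] at h1
  have h2 : aeval w P ∈ (Algebra.adjoin R (X '' (P.vars : Set (Fin n)))).map (aeval w) :=
    ⟨P, h1, rfl⟩
  rw [AlgHom.map_adjoin] at h2
  refine (Algebra.adjoin_le ?_ : _ ≤ S) h2
  rintro _ ⟨_, ⟨k, hk, rfl⟩, rfl⟩
  rw [aeval_X]
  exact h k hk

theorem aeval_mem_Laur (w : Fin n → K) (P : MvPolynomial (Fin n) R) : aeval w P ∈ Laur R w :=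
  aeval_mem_of_vars fun k _ => mem_Laur w k

theorem mem_Laur_iff {w : Fin n → K} (hw : ∀ k, w k ≠ 0) {f : K} :
    f ∈ Laur R w ↔ ∃ (N : ℕ) (P : MvPolynomial (Fin n) R), f * (∏ k, w k) ^ N = aeval w P := by
  constructor
  · intro hf
    let S : Subalgebra R K :=
      { carrier := {f | ∃ (N : ℕ) (P : MvPolynomial (Fin n) R), f * (∏ k, w k) ^ N = aeval w P}
        mul_mem' := by
          rintro a b ⟨N, P, h⟩ ⟨M, Q, h'⟩
          refine ⟨N + M, P * Q, ?_⟩
          rw [map_mul, ← h, ← h']; ring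
        add_mem' := by
          rintro a b ⟨N, P, h⟩ ⟨M, Q, h'⟩
          refine ⟨N + M, P * (∏ k, X k) ^ M + Q * (∏ k, X k) ^ N, ?_⟩
          simp only [map_add, map_mul, map_pow, map_prod, aeval_X, ← h, ← h']; ring
        algebraMap_mem' := by
          intro r
          exact ⟨0, C r, by simp⟩ }
    have h : Laur R w ≤ S := by
      refine Laur_le (fun k => ⟨0, X k, by simp⟩) fun k => ?_
      refine ⟨1, ∏ l ∈ Finset.univ.erase k, X l, ?_⟩
      simp only [pow_one, map_prod, aeval_X]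
      rw [← Finset.mul_prod_erase Finset.univ w (Finset.mem_univ k), ← mul_assoc,
        inv_mul_cancel₀ (hw k), one_mul]
    exact h hf
  · rintro ⟨N, P, h⟩
    have h0 : (∏ k, w k) ≠ 0 := Finset.prod_ne_zero_iff.2 fun k _ => hw k
    have : f = aeval w P * ∏ k, ((w k)⁻¹) ^ N := by
      rw [← h, Finset.prod_pow, Finset.prod_inv_distrib, inv_pow, mul_assoc,
        mul_inv_cancel₀ (pow_ne_zero _ h0), mul_one]
    rw [this]
    exact mul_mem (aeval_mem_Laur w P) (prod_mem fun k _ => pow_mem (inv_mem_Laur w k) _)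

/-- a nonzero polynomial is a monomial times a polynomial divisible by no variable -/
theorem exists_eq_X_pow_mul [IsDomain R] [UniqueFactorizationMonoid R]
    {P : MvPolynomial (Fin n) R} (hP : P ≠ 0) :
    ∃ (m : Fin n → ℕ) (g : MvPolynomial (Fin n) R), (∀ i, ¬ X i ∣ g) ∧
      P = (∏ k, X k ^ m k) * g := by
  -- induct over a finset of variables
  have key : ∀ s : Finset (Fin n), ∃ (m : Fin n → ℕ) (g : MvPolynomial (Fin n) R),
      (∀ i ∈ s, ¬ X i ∣ g) ∧ P = (∏ k, X k ^ m k) * g := by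
    intro s
    induction s using Finset.induction_on with
    | empty => exact ⟨0, P, by simp, by simp⟩
    | insert j s hj ih =>
      obtain ⟨m, g, hg, hm⟩ := ih
      have hg0 : g ≠ 0 := by rintro rfl; apply hP; rw [hm, mul_zero]
      have hXp : Prime (X j : MvPolynomial (Fin n) R) := X_prime
      obtain ⟨q, g', hg', hq⟩ := WfDvdMonoid.max_power_factor hg0 hXp.irreducible
      refine ⟨fun k => m k + (Pi.single j q : Fin n → ℕ) k, g', ?_, ?_⟩
      · intro i hi
        rcases Finset.mem_insert.1 hi with rfl | hi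
        · exact hg'
        · intro h
          apply hg i hi
          rw [hq]
          exact h.mul_left _
      · rw [hm]
        conv_lhs => rw [hq]
        rw [← mul_assoc]
        congr 1
        simp only [pow_add, Finset.prod_mul_distrib]
        congr 1
        rw [Finset.prod_eq_single j]
        · simp
        · intro b _ hb; simp [Pi.single_eq_of_ne hb]
        · simp
  obtain ⟨m, g, hg, hm⟩ := key Finset.univ
  exact ⟨m, g, fun i => hg i (Finset.mem_univ i), hm⟩

/-- every nonzero Laurent polynomial is a Laurent monomial times a polynomial divisible by no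
variable -/
theorem exists_eq_monomial_mul [IsDomain R] [UniqueFactorizationMonoid R] {w : Fin n → K}
    (hw : ∀ k, w k ≠ 0) {f : K} (hf : f ∈ Laur R w) (hf0 : f ≠ 0) :
    ∃ (m : Fin n → ℤ) (g : MvPolynomial (Fin n) R), (∀ i, ¬ X i ∣ g) ∧
      f = (∏ k, w k ^ m k) * aeval w g := by
  obtain ⟨N, P, h⟩ := (mem_Laur_iff hw).1 hf
  have h0 : (∏ k, w k) ≠ 0 := Finset.prod_ne_zero_iff.2 fun k _ => hw k
  have hP : P ≠ 0 := by
    rintro rfl
    rw [map_zero] at h
    rcases mul_eq_zero.1 h with h | h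
    · exact hf0 h
    · exact pow_ne_zero _ h0 h
  obtain ⟨m, g, hg, hm⟩ := exists_eq_X_pow_mul hP
  refine ⟨fun k => (m k : ℤ) - N, g, hg, ?_⟩
  have h1 : ∏ k, w k ^ ((m k : ℤ) - N) = (∏ k, w k ^ m k) / (∏ k, w k) ^ N := by
    rw [← Finset.prod_pow, ← Finset.prod_div_distrib]
    refine Finset.prod_congr rfl fun k _ => ?_
    rw [zpow_sub₀ (hw k), zpow_natCast, zpow_natCast]
  rw [h1, eq_div_of_mul_eq (pow_ne_zero _ h0) h, hm]
  simp only [map_mul, map_prod, map_pow, aeval_X]
  ring

/-- divisibility by powers of a prime in a Laurent ring -/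
theorem aeval_div_pow_mem_Laur_iff [IsDomain R] {w : Fin n → K} (hw : AlgebraicIndependent R w)
    {p : MvPolynomial (Fin n) R} (hp : Prime p) (hX : ∀ k, ¬ p ∣ X k)
    (P : MvPolynomial (Fin n) R) (q : ℕ) :
    aeval w P / (aeval w p) ^ q ∈ Laur R w ↔ p ^ q ∣ P := by
  have hinj : Function.Injective (aeval w : MvPolynomial (Fin n) R →ₐ[R] K) := hw
  have hw0 : ∀ k, w k ≠ 0 := fun k => hw.ne_zero k
  have hp0 : aeval w p ≠ 0 := by
    intro h
    apply hp.ne_zero
    apply hinj
    rw [h, map_zero]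
  constructor
  · intro h
    obtain ⟨N, Q, h⟩ := (mem_Laur_iff hw0).1 h
    have h1 : P * (∏ k, X k) ^ N = p ^ q * Q := by
      apply hinj
      simp only [map_mul, map_pow, map_prod, aeval_X]
      rw [← h]
      field_simp
    have h2 : p ^ q ∣ P * (∏ k, X k) ^ N := ⟨Q, h1⟩
    have h3 : ¬ p ∣ (∏ k, X k : MvPolynomial (Fin n) R) ^ N := by
      intro h
      have := hp.dvd_of_dvd_pow h
      rw [Prime.dvd_finsetProd_iff hp] at this
      obtain ⟨k, _, hk⟩ := this
      exact hX k hk
    exact hp.pow_dvd_of_dvd_mul_right _ h3 h2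
  · rintro ⟨Q, rfl⟩
    rw [map_mul, map_pow, mul_div_cancel_left₀ _ (pow_ne_zero _ hp0)]
    exact aeval_mem_Laur w Q

/-- a prime polynomial, not a variable, is prime in the Laurent ring -/
theorem Laur_prime [IsDomain R] {w : Fin n → K} (hw : AlgebraicIndependent R w)
    {p : MvPolynomial (Fin n) R} (hp : Prime p) (hX : ∀ k, ¬ p ∣ X k)
    {a b : K} (ha : a ∈ Laur R w) (hb : b ∈ Laur R w) (h : a * b / aeval w p ∈ Laur R w) :
    a / aeval w p ∈ Laur R w ∨ b / aeval w p ∈ Laur R w := by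
  have hw0 : ∀ k, w k ≠ 0 := fun k => hw.ne_zero k
  obtain ⟨N, P, hP⟩ := (mem_Laur_iff hw0).1 ha
  obtain ⟨M, Q, hQ⟩ := (mem_Laur_iff hw0).1 hb
  have hmon : ∀ L : ℕ, ((∏ k, w k) ^ L)⁻¹ ∈ Laur R w := by
    intro L
    rw [← inv_pow, ← Finset.prod_inv_distrib]
    exact pow_mem (prod_mem fun k _ => inv_mem_Laur w k) _
  have hmon' : ∀ L : ℕ, ((∏ k, w k) ^ L) ∈ Laur R w := by
    intro L
    exact pow_mem (prod_mem fun k _ => mem_Laur w k) _
  have h0 : (∏ k, w k) ≠ 0 := Finset.prod_ne_zero_iff.2 fun k _ => hw0 k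
  have h1 : aeval w (P * Q) / aeval w p ^ 1 ∈ Laur R w := by
    have : aeval w (P * Q) / aeval w p ^ 1 = (a * b / aeval w p) * (∏ k, w k) ^ (N + M) := by
      rw [map_mul, ← hP, ← hQ]; ring
    rw [this]
    exact mul_mem h (hmon' _)
  rw [aeval_div_pow_mem_Laur_iff hw hp hX, pow_one] at h1
  rcases hp.dvd_or_dvd h1 with h2 | h2
  · left
    rw [← pow_one p, ← aeval_div_pow_mem_Laur_iff hw hp hX, pow_one, ← hP] at h2
    have := mul_mem h2 (hmon N)
    have e : a * (∏ k, w k) ^ N / aeval w p * ((∏ k, w k) ^ N)⁻¹ = a / aeval w p := by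
      field_simp
    rwa [e] at this
  · right
    rw [← pow_one p, ← aeval_div_pow_mem_Laur_iff hw hp hX, pow_one, ← hQ] at h2
    have := mul_mem h2 (hmon M)
    have e : b * (∏ k, w k) ^ M / aeval w p * ((∏ k, w k) ^ M)⁻¹ = b / aeval w p := by
      field_simp
    rwa [e] at this

/-- `aeval` only depends on the variables that occur -/
theorem aeval_update_of_notMem {w : Fin n → K} {i : Fin n} {a : K}
    {P : MvPolynomial (Fin n) R} (h : i ∉ P.vars) :
    aeval (Function.update w i a) P = aeval w P := by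
  rw [aeval_def, aeval_def]
  refine eval₂Hom_congr' rfl ?_ rfl
  intro k hk _
  have : k ≠ i := by rintro rfl; exact h hk
  rw [Function.update_of_ne this]

/-- replacing `w i` by an element `a` such that `w i` is algebraic over the others and `a` -/
theorem algebraicIndependent_update {w : Fin n → K}
    (hw : AlgebraicIndependent R w) (i : Fin n) (a : K)
    (h : IsAlgebraic (Algebra.adjoin R (w '' {i}ᶜ)) a →
      IsAlgebraic (Algebra.adjoin R (w '' {i}ᶜ)) (w i)) :
    AlgebraicIndependent R (Function.update w i a) := by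
  rw [AlgebraicIndependent.iff_transcendental_adjoin_image i] at hw ⊢
  have h1 : (Function.update w i a) '' {i}ᶜ = w '' {i}ᶜ := by
    refine Set.image_congr fun k hk => ?_
    rw [Function.update_of_ne hk]
  have h2 : (fun j : {j // j ≠ i} => Function.update w i a j) = fun j : {j // j ≠ i} => w j := by
    funext j
    rw [Function.update_of_ne j.2]
  rw [h1, h2, Function.update_self]
  exact ⟨hw.1, fun h3 => hw.2 (h h3)⟩

theorem aeval_mem_adjoin_compl {w : Fin n → K} {i : Fin n} {A : MvPolynomial (Fin n) R}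
    (hAi : i ∉ A.vars) : aeval w A ∈ Algebra.adjoin R (w '' {i}ᶜ) := by
  refine aeval_mem_of_vars fun k hk => Algebra.subset_adjoin ⟨k, ?_, rfl⟩
  rintro rfl
  exact hAi hk

/-- replacing `w i` by `g * w i`, `g` a nonzero rational expression in the other variables -/
theorem algebraicIndependent_update_mul {w : Fin n → K}
    (hw : AlgebraicIndependent R w) (i : Fin n) {A B : MvPolynomial (Fin n) R}
    (hA : A ≠ 0) (hB : B ≠ 0) (hAi : i ∉ A.vars) (hBi : i ∉ B.vars) :
    AlgebraicIndependent R (Function.update w i (aeval w A / aeval w B * w i)) := by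
  have hinj : Function.Injective (aeval w : MvPolynomial (Fin n) R →ₐ[R] K) := hw
  have hA0 : aeval w A ≠ 0 := fun h => hA (hinj (by rw [h, map_zero]))
  have hB0 : aeval w B ≠ 0 := fun h => hB (hinj (by rw [h, map_zero]))
  refine algebraicIndependent_update hw i _ fun h => ?_
  have h1 : IsAlgebraic (Algebra.adjoin R (w '' {i}ᶜ)) (aeval w A) :=
    isAlgebraic_algebraMap (⟨_, aeval_mem_adjoin_compl hAi⟩ : Algebra.adjoin R (w '' {i}ᶜ))
  have h2 : IsAlgebraic (Algebra.adjoin R (w '' {i}ᶜ)) (aeval w B) :=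
    isAlgebraic_algebraMap (⟨_, aeval_mem_adjoin_compl hBi⟩ : Algebra.adjoin R (w '' {i}ᶜ))
  have h3 := (h2.mul h1.inv).mul h
  have e : aeval w B * (aeval w A)⁻¹ * (aeval w A / aeval w B * w i) = w i := by
    field_simp
  rwa [e] at h3

/-- replacing `w i` by `g / w i`, `g` a nonzero rational expression in the other variables -/
theorem algebraicIndependent_update_div {w : Fin n → K}
    (hw : AlgebraicIndependent R w) (i : Fin n) {A B : MvPolynomial (Fin n) R}
    (hA : A ≠ 0) (hB : B ≠ 0) (hAi : i ∉ A.vars) (hBi : i ∉ B.vars) (hwi : w i ≠ 0) :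
    AlgebraicIndependent R (Function.update w i (aeval w A / aeval w B / w i)) := by
  have hinj : Function.Injective (aeval w : MvPolynomial (Fin n) R →ₐ[R] K) := hw
  have hA0 : aeval w A ≠ 0 := fun h => hA (hinj (by rw [h, map_zero]))
  have hB0 : aeval w B ≠ 0 := fun h => hB (hinj (by rw [h, map_zero]))
  refine algebraicIndependent_update hw i _ fun h => ?_
  have h1 : IsAlgebraic (Algebra.adjoin R (w '' {i}ᶜ)) (aeval w A) :=
    isAlgebraic_algebraMap (⟨_, aeval_mem_adjoin_compl hAi⟩ : Algebra.adjoin R (w '' {i}ᶜ))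
  have h2 : IsAlgebraic (Algebra.adjoin R (w '' {i}ᶜ)) (aeval w B) :=
    isAlgebraic_algebraMap (⟨_, aeval_mem_adjoin_compl hBi⟩ : Algebra.adjoin R (w '' {i}ᶜ))
  have h3 := (h1.mul h2.inv).mul h.inv
  have e : aeval w A * (aeval w B)⁻¹ * (aeval w A / aeval w B / w i)⁻¹ = w i := by
    field_simp
  rwa [e] at h3

/-! ### setting a variable to zero -/

/-- `P` with `X i` replaced by `0` -/
theorem aeval_zero_notMem [Nontrivial R] (i : Fin n) (P : MvPolynomial (Fin n) R) :
    i ∉ (aeval (Function.update X i 0) P : MvPolynomial (Fin n) R).vars := by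
  have h : (aeval (Function.update X i 0) P : MvPolynomial (Fin n) R) ∈
      supported R ({i}ᶜ : Set (Fin n)) := by
    induction P using MvPolynomial.induction_on with
    | C a => rw [aeval_C]; exact Subalgebra.algebraMap_mem _ _
    | add p q hp hq => rw [map_add]; exact add_mem hp hq
    | mul_X p k hp =>
      rw [map_mul, aeval_X]
      refine mul_mem hp ?_
      by_cases hk : k = i
      · subst hk; rw [Function.update_self]; exact zero_mem _
      · rw [Function.update_of_ne hk]
        exact X_mem_supported.2 hk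
  rw [mem_supported] at h
  intro hi
  exact h hi rfl

theorem aeval_zero_of_notMem {i : Fin n} {P : MvPolynomial (Fin n) R} (h : i ∉ P.vars) :
    aeval (Function.update X i 0) P = P := by
  conv_rhs => rw [← aeval_X_left_apply P]
  rw [aeval_def, aeval_def]
  refine eval₂Hom_congr' rfl ?_ rfl
  intro k hk _
  have : k ≠ i := by rintro rfl; exact h hk
  rw [Function.update_of_ne this]

theorem exists_eq_aeval_zero_add (i : Fin n) (P : MvPolynomial (Fin n) R) :
    ∃ Q : MvPolynomial (Fin n) R, P = aeval (Function.update X i 0) P + X i * Q := by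
  induction P using MvPolynomial.induction_on with
  | C a => exact ⟨0, by simp [algebraMap_eq]⟩
  | add p q hp hq =>
    obtain ⟨Q1, h1⟩ := hp
    obtain ⟨Q2, h2⟩ := hq
    refine ⟨Q1 + Q2, ?_⟩
    rw [map_add, mul_add]
    conv_lhs => rw [h1, h2]
    ring
  | mul_X p k hp =>
    obtain ⟨Q, h⟩ := hp
    rw [map_mul, aeval_X]
    by_cases hk : k = i
    · subst hk
      refine ⟨p, ?_⟩
      rw [Function.update_self]; ring
    · rw [Function.update_of_ne hk]
      refine ⟨Q * X k, ?_⟩
      conv_lhs => rw [h]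
      ring

theorem aeval_zero_eq_zero_iff (i : Fin n) (P : MvPolynomial (Fin n) R) :
    aeval (Function.update X i (0 : MvPolynomial (Fin n) R)) P = 0 ↔ X i ∣ P := by
  constructor
  · intro h
    obtain ⟨Q, hQ⟩ := exists_eq_aeval_zero_add i P
    rw [h, zero_add] at hQ
    exact ⟨Q, hQ⟩
  · rintro ⟨Q, rfl⟩
    rw [map_mul, aeval_X, Function.update_self, zero_mul]

/-- a divisor of a nonzero polynomial not involving `X i` does not involve `X i` -/
theorem notMem_vars_of_dvd [IsDomain R] {i : Fin n} {P Q : MvPolynomial (Fin n) R} (h : P ∣ Q)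
    (hQ : Q ≠ 0) (hi : i ∉ Q.vars) : i ∉ P.vars := by
  obtain ⟨S, rfl⟩ := h
  rw [mem_vars_iff_degreeOf_ne_zero, not_not] at hi ⊢
  rw [degreeOf_mul_eq (left_ne_zero_of_mul hQ) (right_ne_zero_of_mul hQ)] at hi
  omega

end Pool.Agent.Helper98.LP
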