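import Pool.Agent.Helper98.LP.A_Laurent

/-! Module B: the rings `L_j(t)`, `U(t)`; pole divisibility (1a); generation lemma (1b). -/

set_option linter.unusedSectionVars false

open MvPolynomial

namespace Pool.Agent.Helper98.LP

variable {R : Type*} [CommRing R] {n : ℕ} {K : Type*} [Field K] [Algebra R K]

/-- the value `F_j(x)` -/
noncomputable def Seed.f (t : Seed R n K) (j : Fin n) : K := aeval t.x (t.F j)

/-- `x` with `x_j` replaced by `T_j = x_j / F_j(x)` -/
noncomputable def Seed.w (t : Seed R n K) (j : Fin n) : Fin n → K :=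
  Function.update t.x j (t.x j / t.f j)

/-- `L_j(t)` -/
noncomputable def Seed.L (t : Seed R n K) (j : Fin n) : Subalgebra R K := Laur R (t.w j)

/-- `U(t)` -/
noncomputable def Seed.U (t : Seed R n K) : Subalgebra R K := Laur R t.x ⊓ ⨅ j, t.L j

theorem Seed.mem_U {t : Seed R n K} {f : K} : f ∈ t.U ↔ f ∈ Laur R t.x ∧ ∀ j, f ∈ t.L j := by
  rw [Seed.U, Algebra.mem_inf, Algebra.mem_iInf]

theorem Seed.algInd (t : Seed R n K) : AlgebraicIndependent R t.x := t.basis.1

theorem Seed.f_eq_aeval_w (t : Seed R n K) (j : Fin n) : t.f j = aeval (t.w j) (t.F j) := by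
  rw [Seed.w, aeval_update_of_notMem (t.notMem_vars j)]; rfl

theorem Seed.aeval_w (t : Seed R n K) (j : Fin n) {P : MvPolynomial (Fin n) R}
    (hP : j ∉ P.vars) : aeval (t.w j) P = aeval t.x P := by
  rw [Seed.w, aeval_update_of_notMem hP]

theorem Seed.w_self (t : Seed R n K) (j : Fin n) : t.w j j = t.x j / t.f j := by
  rw [Seed.w, Function.update_self]

theorem Seed.w_of_ne (t : Seed R n K) {j k : Fin n} (h : k ≠ j) : t.w j k = t.x k := by
  rw [Seed.w, Function.update_of_ne h]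

section

variable [IsDomain R]

theorem Seed.x_ne_zero (t : Seed R n K) (i : Fin n) : t.x i ≠ 0 := t.algInd.ne_zero i

theorem Seed.aeval_injective (t : Seed R n K) :
    Function.Injective (aeval t.x : MvPolynomial (Fin n) R →ₐ[R] K) := t.algInd

theorem Seed.aeval_ne_zero (t : Seed R n K) {P : MvPolynomial (Fin n) R} (hP : P ≠ 0) :
    aeval t.x P ≠ 0 := fun h => hP (t.aeval_injective (by rw [h, map_zero]))

theorem Seed.f_ne_zero (t : Seed R n K) (j : Fin n) : t.f j ≠ 0 :=
  t.aeval_ne_zero (t.irreducible j).ne_zero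

theorem Seed.x_eq (t : Seed R n K) (j : Fin n) : t.x j = t.w j j * t.f j := by
  rw [t.w_self, div_mul_cancel₀ _ (t.f_ne_zero j)]

theorem Seed.w_algInd (t : Seed R n K) (j : Fin n) : AlgebraicIndependent R (t.w j) := by
  have h := algebraicIndependent_update_mul t.algInd j (A := 1) (B := t.F j) one_ne_zero
    (t.irreducible j).ne_zero (by simp) (t.notMem_vars j)
  rw [map_one, one_div, inv_mul_eq_div] at h
  exact h

theorem Seed.w_ne_zero (t : Seed R n K) (j k : Fin n) : t.w j k ≠ 0 := (t.w_algInd j).ne_zero k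

theorem Seed.F_not_dvd_X (t : Seed R n K) (j k : Fin n) : ¬ t.F j ∣ X k := by
  intro h
  have hX : Irreducible (X k : MvPolynomial (Fin n) R) := (X_prime (i := k)).irreducible
  have h2 := (t.irreducible j).associated_of_dvd hX h
  exact t.not_X_dvd j k h2.symm.dvd

theorem Seed.f_mem_L (t : Seed R n K) (j : Fin n) : t.f j ∈ t.L j := by
  rw [t.f_eq_aeval_w j]; exact aeval_mem_Laur _ _

theorem Seed.T_mem_L (t : Seed R n K) (j : Fin n) : t.x j / t.f j ∈ t.L j := by
  have := mem_Laur (R := R) (t.w j) j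
  rwa [t.w_self] at this

theorem Seed.y_mem_L (t : Seed R n K) (j : Fin n) : t.f j / t.x j ∈ t.L j := by
  have := inv_mem_Laur (R := R) (t.w j) j
  rwa [t.w_self, inv_div] at this

theorem Seed.x_mem_L (t : Seed R n K) (j k : Fin n) : t.x k ∈ t.L j := by
  by_cases h : k = j
  · subst h
    rw [t.x_eq k]
    exact mul_mem (mem_Laur _ _) (t.f_mem_L k)
  · rw [← t.w_of_ne h]; exact mem_Laur _ _

theorem Seed.x_inv_mem_L (t : Seed R n K) {j k : Fin n} (h : k ≠ j) : (t.x k)⁻¹ ∈ t.L j := by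
  rw [← t.w_of_ne h]; exact inv_mem_Laur _ _

theorem Seed.aeval_mem_L (t : Seed R n K) (j : Fin n) (P : MvPolynomial (Fin n) R) :
    aeval t.x P ∈ t.L j := aeval_mem_of_vars fun k _ => t.x_mem_L j k

theorem Seed.x_mem_U (t : Seed R n K) (i : Fin n) : t.x i ∈ t.U :=
  Seed.mem_U.2 ⟨mem_Laur _ _, fun j => t.x_mem_L j i⟩

theorem Seed.aeval_mem_U (t : Seed R n K) (P : MvPolynomial (Fin n) R) : aeval t.x P ∈ t.U :=
  aeval_mem_of_vars fun k _ => t.x_mem_U k

theorem Seed.y_mem_U (t : Seed R n K) (i : Fin n) : t.f i / t.x i ∈ t.U := by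
  refine Seed.mem_U.2 ⟨?_, fun j => ?_⟩
  · rw [div_eq_mul_inv]
    exact mul_mem (aeval_mem_Laur _ _) (inv_mem_Laur _ _)
  · by_cases h : i = j
    · subst h; exact t.y_mem_L i
    · rw [div_eq_mul_inv]
      exact mul_mem (t.aeval_mem_L j _) (t.x_inv_mem_L h)

section ufd

variable [UniqueFactorizationMonoid R]

theorem Seed.F_prime (t : Seed R n K) (j : Fin n) : Prime (t.F j) := (t.irreducible j).prime

/-- `L_j(t)` membership of a quotient by powers of `F_j(x)`, for polynomials in the `x_k`, `k ≠ j` -/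
theorem Seed.aeval_div_f_pow_mem_L (t : Seed R n K) (j : Fin n)
    {P : MvPolynomial (Fin n) R} (hP : j ∉ P.vars) (q : ℕ) :
    aeval t.x P / t.f j ^ q ∈ t.L j ↔ t.F j ^ q ∣ P := by
  rw [← t.aeval_w j hP, t.f_eq_aeval_w j]
  exact aeval_div_pow_mem_Laur_iff (t.w_algInd j) (t.F_prime j) (t.F_not_dvd_X j) P q

theorem Seed.one_div_f_notMem_L (t : Seed R n K) (j : Fin n) : 1 / t.f j ∉ t.L j := by
  intro h
  have h1 : aeval t.x (1 : MvPolynomial (Fin n) R) / t.f j ^ 1 ∈ t.L j := by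
    rwa [map_one, pow_one]
  rw [t.aeval_div_f_pow_mem_L j (by simp), pow_one] at h1
  exact (t.irreducible j).not_isUnit (isUnit_of_dvd_one h1)

/-- `F_j(x)` is prime in `L_j(t)` -/
theorem Seed.L_prime (t : Seed R n K) (j : Fin n) {a b : K}
    (ha : a ∈ t.L j) (hb : b ∈ t.L j) (h : a * b / t.f j ∈ t.L j) :
    a / t.f j ∈ t.L j ∨ b / t.f j ∈ t.L j := by
  rw [t.f_eq_aeval_w j] at h ⊢
  exact Laur_prime (t.w_algInd j) (t.F_prime j) (t.F_not_dvd_X j) ha hb h

/-- (1a) -/
theorem Seed.pole_dvd (t : Seed R n K) (j : Fin n)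
    (P : MvPolynomial (Fin n) R) (q : ℕ) (h : aeval t.x P / t.x j ^ q ∈ t.L j) :
    t.F j ^ q ∣ aeval (Function.update X j 0) P := by
  set P' : MvPolynomial (Fin n) R := aeval (Function.update X j (t.F j * X j)) P with hP'
  have h1 : aeval (t.w j) P' = aeval t.x P := by
    rw [hP', comp_aeval_apply]
    congr 2
    funext k
    by_cases hk : k = j
    · subst hk
      rw [Function.update_self, map_mul, aeval_X, ← t.f_eq_aeval_w, t.x_eq k]
      ring
    · rw [Function.update_of_ne hk, aeval_X, t.w_of_ne hk]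
  have h2 : aeval (t.w j) P' / aeval (t.w j) (t.F j) ^ q ∈ t.L j := by
    have h3 := mul_mem h (pow_mem (t.T_mem_L j) q)
    have e : aeval t.x P / t.x j ^ q * (t.x j / t.f j) ^ q =
        aeval (t.w j) P' / aeval (t.w j) (t.F j) ^ q := by
      rw [h1, ← t.f_eq_aeval_w, div_pow]
      have := t.x_ne_zero j
      have := t.f_ne_zero j
      field_simp
    rwa [e] at h3
  rw [Seed.L, aeval_div_pow_mem_Laur_iff (t.w_algInd j) (t.F_prime j) (t.F_not_dvd_X j)] at h2
  have h4 := map_dvd (aeval (Function.update X j (0 : MvPolynomial (Fin n) R))) h2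
  rw [map_pow, aeval_zero_of_notMem (t.notMem_vars j)] at h4
  convert h4 using 1
  rw [hP', comp_aeval_apply]
  congr 2
  funext k
  by_cases hk : k = j
  · subst hk
    rw [Function.update_self, Function.update_self, map_mul, aeval_X, Function.update_self,
      mul_zero]
  · rw [Function.update_of_ne hk, Function.update_of_ne hk, aeval_X, Function.update_of_ne hk]

/-- (1b) generation lemma -/
theorem Seed.mem_of_mem_V (t : Seed R n K) (j : Fin n)
    (S : Subalgebra R K) (h1 : ∀ k, t.x k ∈ S) (h2 : ∀ k, k ≠ j → (t.x k)⁻¹ ∈ S)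
    (h3 : t.f j / t.x j ∈ S) {f : K} (hf : f ∈ Laur R t.x) (hf' : f ∈ t.L j) : f ∈ S := by
  have hx := t.x_ne_zero j
  have hfj := t.f_ne_zero j
  have key : ∀ (q : ℕ) (P : MvPolynomial (Fin n) R), aeval t.x P / t.x j ^ q ∈ t.L j →
      aeval t.x P / t.x j ^ q ∈ S := by
    intro q
    induction q with
    | zero =>
      intro P _
      rw [pow_zero, div_one]
      exact aeval_mem_of_vars fun k _ => h1 k
    | succ q ih =>
      intro P hP
      obtain ⟨g, hg⟩ := t.pole_dvd j P (q + 1) hP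
      obtain ⟨Q, hQ⟩ := exists_eq_aeval_zero_add j P
      have e : aeval t.x P / t.x j ^ (q + 1) =
          aeval t.x g * (t.f j / t.x j) ^ (q + 1) + aeval t.x Q / t.x j ^ q := by
        conv_lhs => rw [hQ, hg]
        rw [map_add, map_mul, map_mul, map_pow, aeval_X]
        change ((t.f j) ^ (q + 1) * _ + _) / _ = _
        rw [div_pow]
        field_simp
        ring
      have hQL : aeval t.x Q / t.x j ^ q ∈ t.L j := by
        have : aeval t.x Q / t.x j ^ q = aeval t.x P / t.x j ^ (q + 1) -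
            aeval t.x g * (t.f j / t.x j) ^ (q + 1) := by rw [e]; ring
        rw [this]
        exact sub_mem hP (mul_mem (t.aeval_mem_L j g) (pow_mem (t.y_mem_L j) _))
      rw [e]
      exact add_mem (mul_mem (aeval_mem_of_vars fun k _ => h1 k) (pow_mem h3 _)) (ih Q hQL)
  obtain ⟨N, P, hP⟩ := (mem_Laur_iff t.x_ne_zero).1 hf
  have hm0 : (∏ k ∈ Finset.univ.erase j, t.x k) ^ N ≠ 0 :=
    pow_ne_zero _ (Finset.prod_ne_zero_iff.2 fun k _ => t.x_ne_zero k)
  have e : aeval t.x P / t.x j ^ N = f * (∏ k ∈ Finset.univ.erase j, t.x k) ^ N := by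
    rw [← hP, ← Finset.mul_prod_erase Finset.univ t.x (Finset.mem_univ j), mul_pow]
    field_simp
  have hmem : aeval t.x P / t.x j ^ N ∈ S := by
    refine key N P ?_
    rw [e]
    exact mul_mem hf' (pow_mem (prod_mem fun k _ => t.x_mem_L j k) _)
  rw [e] at hmem
  have h5 : ((∏ k ∈ Finset.univ.erase j, t.x k) ^ N)⁻¹ ∈ S := by
    rw [← inv_pow, ← Finset.prod_inv_distrib]
    exact pow_mem (prod_mem fun k hk => h2 k (Finset.ne_of_mem_erase hk)) _
  have h6 := mul_mem hmem h5
  rwa [mul_inv_cancel_right₀ hm0] at h6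

/-- the localization `O_j(t)` of `L_j(t)` at the prime `F_j(x)` -/
noncomputable def Seed.O (t : Seed R n K) (j : Fin n) :
    Subalgebra R K where
  carrier := {f | ∃ E ∈ t.L j, E / t.f j ∉ t.L j ∧ E * f ∈ t.L j}
  mul_mem' := by
    rintro a b ⟨E, hE, hE', h⟩ ⟨D, hD, hD', h'⟩
    refine ⟨E * D, mul_mem hE hD, fun h2 => ?_, ?_⟩
    · rcases t.L_prime j hE hD h2 with h3 | h3
      · exact hE' h3
      · exact hD' h3
    · have := mul_mem h h'
      rwa [mul_mul_mul_comm] at this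
  add_mem' := by
    rintro a b ⟨E, hE, hE', h⟩ ⟨D, hD, hD', h'⟩
    refine ⟨E * D, mul_mem hE hD, fun h2 => ?_, ?_⟩
    · rcases t.L_prime j hE hD h2 with h3 | h3
      · exact hE' h3
      · exact hD' h3
    · have := add_mem (mul_mem h hD) (mul_mem h' hE)
      have e : E * D * (a + b) = E * a * D + D * b * E := by ring
      rwa [e]
  algebraMap_mem' := by
    intro r
    exact ⟨1, one_mem _, t.one_div_f_notMem_L j, by
      rw [one_mul]; exact Subalgebra.algebraMap_mem _ _⟩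

theorem Seed.mem_O {t : Seed R n K} {j : Fin n} {f : K} :
    f ∈ t.O j ↔ ∃ E ∈ t.L j, E / t.f j ∉ t.L j ∧ E * f ∈ t.L j := Iff.rfl

theorem Seed.L_le_O (t : Seed R n K) (j : Fin n) :
    t.L j ≤ t.O j := fun f hf =>
  ⟨1, one_mem _, t.one_div_f_notMem_L j, by rwa [one_mul]⟩

theorem Seed.inv_mem_O (t : Seed R n K) (j : Fin n) {E : K}
    (hE : E ∈ t.L j) (hE' : E / t.f j ∉ t.L j) : E⁻¹ ∈ t.O j := by
  have h0 : E ≠ 0 := by
    rintro rfl
    apply hE'
    rw [zero_div]; exact zero_mem _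
  exact ⟨E, hE, hE', by rw [mul_inv_cancel₀ h0]; exact one_mem _⟩

/-- (2a) -/
theorem Seed.mem_L_of_mem_O (t : Seed R n K) (j : Fin n) {f : K}
    (hf : f ∈ Laur R t.x) (hf' : f ∈ t.O j) : f ∈ t.L j := by
  have hfj := t.f_ne_zero j
  have hx := t.x_ne_zero j
  have step : ∀ g ∈ t.O j, t.f j * g ∈ t.L j → g ∈ t.L j := by
    rintro g ⟨E, hE, hE', h⟩ h2
    have h3 : E * (t.f j * g) / t.f j ∈ t.L j := by
      have e : E * (t.f j * g) / t.f j = E * g := by field_simp
      rwa [e]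
    rcases t.L_prime j hE h2 h3 with h4 | h4
    · exact absurd h4 hE'
    · rwa [mul_div_cancel_left₀ _ hfj] at h4
  have hO : ∀ q : ℕ, t.f j ^ q * f ∈ t.O j := fun q =>
    mul_mem (pow_mem (t.L_le_O j (t.f_mem_L j)) q) hf'
  have key : ∀ q : ℕ, t.f j ^ q * f ∈ t.L j → f ∈ t.L j := by
    intro q
    induction q with
    | zero => intro h; rwa [pow_zero, one_mul] at h
    | succ q ih =>
      intro h
      refine ih (step _ (hO q) ?_)
      rwa [← mul_assoc, ← pow_succ']
  obtain ⟨N, P, hP⟩ := (mem_Laur_iff t.x_ne_zero).1 hf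
  refine key N ?_
  have hm0 : (∏ k ∈ Finset.univ.erase j, t.x k) ^ N ≠ 0 :=
    pow_ne_zero _ (Finset.prod_ne_zero_iff.2 fun k _ => t.x_ne_zero k)
  have e : t.f j ^ N * f = aeval t.x P * (t.f j / t.x j) ^ N *
      ((∏ k ∈ Finset.univ.erase j, t.x k) ^ N)⁻¹ := by
    rw [← hP, ← Finset.mul_prod_erase Finset.univ t.x (Finset.mem_univ j), mul_pow, div_pow]
    field_simp
  rw [e]
  refine mul_mem (mul_mem (t.aeval_mem_L j P) (pow_mem (t.y_mem_L j) _)) ?_
  rw [← inv_pow, ← Finset.prod_inv_distrib]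
  exact pow_mem (prod_mem fun k hk => t.x_inv_mem_L (Finset.ne_of_mem_erase hk)) _

end ufd

end

end Pool.Agent.Helper98.LP
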