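import Pool.Agent.Helper98.LP.C_Invariance

/-! Module C, second part: `U` is invariant under mutation. -/

set_option linter.unusedSectionVars false

open MvPolynomial

namespace Pool.Agent.Helper98.LP

variable {R : Type*} [CommRing R] [IsDomain R] {n : ℕ} {K : Type*} [Field K] [Algebra R K]

theorem Seed.L_eq_Laur (t : Seed R n K) (j : Fin n) :
    t.L j = Laur R (Function.update t.x j (t.f j / t.x j)) := by
  apply le_antisymm
  · refine Laur_le (fun k => ?_) fun k => ?_
    · by_cases hk : k = j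
      · subst hk
        have := inv_mem_Laur (R := R) (Function.update t.x k (t.f k / t.x k)) k
        rwa [Function.update_self, inv_div, ← t.w_self] at this
      · rw [t.w_of_ne hk]
        have := mem_Laur (R := R) (Function.update t.x j (t.f j / t.x j)) k
        rwa [Function.update_of_ne hk] at this
    · by_cases hk : k = j
      · subst hk
        have := mem_Laur (R := R) (Function.update t.x k (t.f k / t.x k)) k
        rw [Function.update_self] at this
        rw [t.w_self, inv_div]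
        exact this
      · rw [t.w_of_ne hk]
        have := inv_mem_Laur (R := R) (Function.update t.x j (t.f j / t.x j)) k
        rwa [Function.update_of_ne hk] at this
  · refine Laur_le (fun k => ?_) fun k => ?_
    · by_cases hk : k = j
      · subst hk
        rw [Function.update_self]
        exact t.y_mem_L k
      · rw [Function.update_of_ne hk]
        exact t.x_mem_L j k
    · by_cases hk : k = j
      · subst hk
        rw [Function.update_self, inv_div]
        exact t.T_mem_L k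
      · rw [Function.update_of_ne hk]
        exact t.x_inv_mem_L hk

/-- the data of a mutation (before normalizing by units) -/
structure Mut (i : Fin n) (a : Fin n → ℤ) (t s : Seed R n K) : Prop where
  ha : IsHatExponent t.F i a
  hx : s.x = Function.update t.x i (hat (t.F i) a t.x / t.x i)
  hF : ∀ j, MutF t i a s j

namespace Mut

variable {i : Fin n} {a : Fin n → ℤ} {t s : Seed R n K}

theorem x_ne (H : Mut i a t s) {k : Fin n} (hk : k ≠ i) : s.x k = t.x k := by
  rw [H.hx, Function.update_of_ne hk]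

theorem x_self (H : Mut i a t s) : s.x i = hat (t.F i) a t.x / t.x i := by
  rw [H.hx, Function.update_self]

theorem mono_eq (H : Mut i a t s) : ∏ k, s.x k ^ a k = ∏ k, t.x k ^ a k := by
  refine Finset.prod_congr rfl fun k _ => ?_
  by_cases hk : k = i
  · subst hk; rw [H.ha.1, zpow_zero, zpow_zero]
  · rw [H.x_ne hk]

theorem aeval_eq (H : Mut i a t s) {P : MvPolynomial (Fin n) R} (hP : i ∉ P.vars) :
    aeval s.x P = aeval t.x P := by
  rw [H.hx, aeval_update_of_notMem hP]

theorem hat_eq (H : Mut i a t s) : hat (t.F i) a s.x = hat (t.F i) a t.x := by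
  rw [hat, hat, H.mono_eq, H.aeval_eq (t.notMem_vars i)]

theorem hat_t (i : Fin n) (a : Fin n → ℤ) (t : Seed R n K) :
    hat (t.F i) a t.x = (∏ k, t.x k ^ a k) * t.f i := rfl

theorem mono_ne (a : Fin n → ℤ) (t : Seed R n K) : ∏ k, t.x k ^ a k ≠ 0 :=
  Finset.prod_ne_zero_iff.2 fun k _ => zpow_ne_zero _ (t.x_ne_zero k)

theorem hat_ne (i : Fin n) (a : Fin n → ℤ) (t : Seed R n K) : hat (t.F i) a t.x ≠ 0 := by
  rw [hat_t]; exact mul_ne_zero (mono_ne a t) (t.f_ne_zero i)

theorem t_x_self (H : Mut i a t s) : t.x i = hat (t.F i) a t.x / s.x i := by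
  rw [H.x_self]
  have := t.x_ne_zero i
  have := hat_ne i a t
  field_simp

theorem f_unit (H : Mut i a t s) {j : Fin n} (hj : i ∉ (t.F j).vars) :
    ∃ u : Rˣ, s.f j = algebraMap R K u * t.f j := by
  obtain ⟨u, hu⟩ := (H.hF j).1 hj
  refine ⟨u, ?_⟩
  rw [Seed.f, hu, map_mul, aeval_C, H.aeval_eq hj]; rfl

/-- the monomial of `F̂ i` is a unit in every ring containing `x_k^{±1}`, `k ≠ i` -/
theorem mono_mem (H : Mut i a t s) {S : Subalgebra R K}
    (h : ∀ k, k ≠ i → t.x k ∈ S ∧ (t.x k)⁻¹ ∈ S) :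
    (∏ k, t.x k ^ a k) ∈ S ∧ (∏ k, t.x k ^ a k)⁻¹ ∈ S := by
  have h' : ∀ k, a k ≠ 0 → t.x k ∈ S ∧ (t.x k)⁻¹ ∈ S := by
    intro k hk
    refine h k ?_
    rintro rfl
    exact hk H.ha.1
  exact ⟨prod_zpow_mem h', prod_zpow_inv_mem h'⟩

theorem L_eq (H : Mut i a t s) : t.L i = Laur R s.x := by
  apply le_antisymm
  · have hm := H.mono_mem (S := Laur R s.x) fun k hk => by
      rw [← H.x_ne hk]; exact ⟨mem_Laur _ _, inv_mem_Laur _ _⟩
    have e : t.x i / t.f i = (∏ k, t.x k ^ a k) * (s.x i)⁻¹ := by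
      rw [H.x_self, hat_t]
      have := t.x_ne_zero i
      have := t.f_ne_zero i
      have := mono_ne a t
      field_simp
    refine Laur_le (fun k => ?_) fun k => ?_
    · by_cases hk : k = i
      · subst hk
        rw [t.w_self, e]
        exact mul_mem hm.1 (inv_mem_Laur _ _)
      · rw [t.w_of_ne hk, ← H.x_ne hk]; exact mem_Laur _ _
    · by_cases hk : k = i
      · subst hk
        rw [t.w_self, e, mul_inv, inv_inv]
        exact mul_mem hm.2 (mem_Laur _ _)
      · rw [t.w_of_ne hk, ← H.x_ne hk]; exact inv_mem_Laur _ _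
  · have hm := H.mono_mem (S := t.L i) fun k hk => ⟨t.x_mem_L i k, t.x_inv_mem_L hk⟩
    have e : s.x i = (∏ k, t.x k ^ a k) * (t.f i / t.x i) := by
      rw [H.x_self, hat_t]; ring
    refine Laur_le (fun k => ?_) fun k => ?_
    · by_cases hk : k = i
      · subst hk
        rw [e]
        exact mul_mem hm.1 (t.y_mem_L k)
      · rw [H.x_ne hk]; exact t.x_mem_L i k
    · by_cases hk : k = i
      · subst hk
        rw [e, mul_inv, inv_div]
        exact mul_mem hm.2 (t.T_mem_L k)
      · rw [H.x_ne hk]; exact t.x_inv_mem_L hk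

theorem L_eq' (H : Mut i a t s) : s.L i = Laur R t.x := by
  obtain ⟨u, hu⟩ := H.f_unit (t.notMem_vars i)
  have hu0 : algebraMap R K u ≠ 0 := unit_ne_zero u
  apply le_antisymm
  · have hm := H.mono_mem (S := Laur R t.x) fun k hk => ⟨mem_Laur _ _, inv_mem_Laur _ _⟩
    have e : s.x i / s.f i = (∏ k, t.x k ^ a k) * algebraMap R K (u⁻¹ : Rˣ) * (t.x i)⁻¹ := by
      rw [H.x_self, hat_t, hu, ← unit_inv]
      have := t.x_ne_zero i
      have := t.f_ne_zero i
      have := mono_ne a t
      field_simp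
    refine Laur_le (fun k => ?_) fun k => ?_
    · by_cases hk : k = i
      · subst hk
        rw [s.w_self, e]
        exact mul_mem (mul_mem hm.1 (Subalgebra.algebraMap_mem _ _)) (inv_mem_Laur _ _)
      · rw [s.w_of_ne hk, H.x_ne hk]; exact mem_Laur _ _
    · by_cases hk : k = i
      · subst hk
        rw [s.w_self, e, mul_inv, inv_inv, mul_inv, unit_inv, inv_inv]
        exact mul_mem (mul_mem hm.2 (Subalgebra.algebraMap_mem _ _)) (mem_Laur _ _)
      · rw [s.w_of_ne hk, H.x_ne hk]; exact inv_mem_Laur _ _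
  · have hm := H.mono_mem (S := s.L i) fun k hk => by
      rw [← H.x_ne hk]; exact ⟨s.x_mem_L i k, s.x_inv_mem_L hk⟩
    have e : t.x i = (∏ k, t.x k ^ a k) * algebraMap R K (u⁻¹ : Rˣ) * (s.f i / s.x i) := by
      rw [H.x_self, hat_t, hu, ← unit_inv]
      have := t.x_ne_zero i
      have := t.f_ne_zero i
      have := mono_ne a t
      field_simp
    refine Laur_le (fun k => ?_) fun k => ?_
    · by_cases hk : k = i
      · subst hk
        rw [e]
        exact mul_mem (mul_mem hm.1 (Subalgebra.algebraMap_mem _ _)) (s.y_mem_L k)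
      · rw [← H.x_ne hk]; exact s.x_mem_L i k
    · by_cases hk : k = i
      · subst hk
        rw [e, mul_inv, mul_inv, unit_inv, inv_inv, inv_div]
        exact mul_mem (mul_mem hm.2 (Subalgebra.algebraMap_mem _ _)) (s.T_mem_L k)
      · rw [← H.x_ne hk]; exact s.x_inv_mem_L hk

theorem hat_mem (H : Mut i a t s) {j : Fin n} (hj : j ≠ i) :
    hat (t.F i) a t.x ∈ t.L j ∧ hat (t.F i) a t.x / t.f j ∉ t.L j := by
  have := hat_transport H.ha hj (t.irreducible j).ne_zero (t.notMem_vars j) t.algInd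
  rw [t.L_eq_Laur j]
  exact this

/-- case A: `F j` does not involve `x i` -/
theorem hat_mem' (H : Mut i a t s) {j : Fin n} (hj : j ≠ i) (hA : i ∉ (t.F j).vars) :
    hat (t.F i) a t.x ∈ s.L j ∧ hat (t.F i) a t.x / s.f j ∉ s.L j := by
  have h := hat_transport H.ha hj (t.irreducible j).ne_zero (t.notMem_vars j) s.algInd
  obtain ⟨u, hu⟩ := H.f_unit hA
  have hu0 : algebraMap R K u ≠ 0 := unit_ne_zero u
  have e1 : aeval s.x (t.F j) = t.f j := H.aeval_eq hA
  rw [H.hat_eq, e1] at h
  have e2 : Laur R (Function.update s.x j (t.f j / s.x j)) = s.L j := by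
    rw [s.L_eq_Laur j]
    have h1 : ∀ k, ∃ v : Rˣ, Function.update s.x j (t.f j / s.x j) k =
        algebraMap R K v * Function.update s.x j (s.f j / s.x j) k := by
      intro k
      by_cases hk : k = j
      · subst hk
        refine ⟨u⁻¹, ?_⟩
        rw [Function.update_self, Function.update_self, hu, ← unit_inv]
        field_simp
      · refine ⟨1, ?_⟩
        rw [Function.update_of_ne hk, Function.update_of_ne hk]; simp
    have h2 : ∀ k, ∃ v : Rˣ, Function.update s.x j (s.f j / s.x j) k =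
        algebraMap R K v * Function.update s.x j (t.f j / s.x j) k := by
      intro k
      by_cases hk : k = j
      · subst hk
        refine ⟨u, ?_⟩
        rw [Function.update_self, Function.update_self, hu]
        ring
      · refine ⟨1, ?_⟩
        rw [Function.update_of_ne hk, Function.update_of_ne hk]; simp
    exact le_antisymm (Laur_le_of_unit h1) (Laur_le_of_unit h2)
  rw [e2] at h
  refine ⟨h.1, fun h3 => h.2 ?_⟩
  have e3 : hat (t.F i) a t.x / t.f j = algebraMap R K u * (hat (t.F i) a t.x / s.f j) := by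
    rw [hu]
    have := t.f_ne_zero j
    field_simp
  rw [e3]
  exact mul_mem (Subalgebra.algebraMap_mem _ _) h3

section ufd

variable [UniqueFactorizationMonoid R]

/-- consequences of `F̂ i` being a unit of a local ring -/
theorem x_mem_O (H : Mut i a t s) {j : Fin n} (hj : j ≠ i)
    (h1 : hat (t.F i) a t.x ∈ s.O j) (h2 : (hat (t.F i) a t.x)⁻¹ ∈ s.O j) :
    (∀ k, t.x k ∈ s.O j) ∧ (∀ k, k ≠ j → (t.x k)⁻¹ ∈ s.O j) := by
  constructor
  · intro k
    by_cases hk : k = i
    · subst hk
      rw [H.t_x_self, div_eq_mul_inv]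
      exact mul_mem h1 (s.L_le_O j (s.x_inv_mem_L hj.symm))
    · rw [← H.x_ne hk]
      exact s.L_le_O j (s.x_mem_L j k)
  · intro k hkj
    by_cases hk : k = i
    · subst hk
      rw [H.t_x_self, inv_div, div_eq_mul_inv]
      exact mul_mem (s.L_le_O j (s.x_mem_L j k)) h2
    · rw [← H.x_ne hk]
      exact s.L_le_O j (s.x_inv_mem_L hkj)

theorem x_mem_O' (H : Mut i a t s) {j : Fin n} (hj : j ≠ i)
    (h1 : hat (t.F i) a t.x ∈ t.O j) (h2 : (hat (t.F i) a t.x)⁻¹ ∈ t.O j) :
    (∀ k, s.x k ∈ t.O j) ∧ (∀ k, k ≠ j → (s.x k)⁻¹ ∈ t.O j) := by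
  constructor
  · intro k
    by_cases hk : k = i
    · subst hk
      rw [H.x_self, div_eq_mul_inv]
      exact mul_mem h1 (t.L_le_O j (t.x_inv_mem_L hj.symm))
    · rw [H.x_ne hk]
      exact t.L_le_O j (t.x_mem_L j k)
  · intro k hkj
    by_cases hk : k = i
    · subst hk
      rw [H.x_self, inv_div, div_eq_mul_inv]
      exact mul_mem (t.L_le_O j (t.x_mem_L j k)) h2
    · rw [H.x_ne hk]
      exact t.L_le_O j (t.x_inv_mem_L hkj)

theorem hat_mem_O (H : Mut i a t s) {j : Fin n} (hj : j ≠ i) :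
    hat (t.F i) a t.x ∈ t.O j ∧ (hat (t.F i) a t.x)⁻¹ ∈ t.O j :=
  ⟨t.L_le_O j (H.hat_mem hj).1, t.inv_mem_O j (H.hat_mem hj).1 (H.hat_mem hj).2⟩

/-- case A of (2b) -/
theorem caseA (H : Mut i a t s) {j : Fin n} (hj : j ≠ i) (hA : i ∉ (t.F j).vars) :
    ((∀ k, t.x k ∈ s.O j) ∧ (∀ k, k ≠ j → (t.x k)⁻¹ ∈ s.O j) ∧ t.f j / t.x j ∈ s.O j) ∧
    ((∀ k, s.x k ∈ t.O j) ∧ (∀ k, k ≠ j → (s.x k)⁻¹ ∈ t.O j) ∧ s.f j / s.x j ∈ t.O j) := by
  obtain ⟨u, hu⟩ := H.f_unit hA
  have hu0 : algebraMap R K u ≠ 0 := unit_ne_zero u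
  constructor
  · have h := H.hat_mem' hj hA
    have h' := H.x_mem_O hj (s.L_le_O j h.1) (s.inv_mem_O j h.1 h.2)
    refine ⟨h'.1, h'.2, ?_⟩
    have e : t.f j / t.x j = algebraMap R K (u⁻¹ : Rˣ) * (s.f j / s.x j) := by
      rw [hu, H.x_ne hj, ← unit_inv]
      field_simp
    rw [e]
    exact s.L_le_O j (mul_mem (Subalgebra.algebraMap_mem _ _) (s.y_mem_L j))
  · have h := H.hat_mem_O hj
    have h' := H.x_mem_O' hj h.1 h.2
    refine ⟨h'.1, h'.2, ?_⟩
    rw [hu, H.x_ne hj, mul_div_assoc]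
    exact t.L_le_O j (mul_mem (Subalgebra.algebraMap_mem _ _) (t.y_mem_L j))

/-- case B: the exponent vanishes -/
theorem a_eq_zero (H : Mut i a t s) {j : Fin n} (hj : j ≠ i) (hB : i ∈ (t.F j).vars) :
    a j = 0 := by
  by_contra h0
  have ha := H.ha.2.1 j
  obtain ⟨e, he⟩ := Int.eq_ofNat_of_zero_le (a := -a j) (by omega)
  have he0 : e ≠ 0 := by omega
  have h1 : aeval t.x (t.F i) / t.x j ^ e ∈ t.L j := by
    have h2 := (H.hat_mem hj).1
    have h3 : (∏ k ∈ Finset.univ.erase j, t.x k ^ (- a k)) ∈ t.L j := by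
      refine prod_mem fun k hk => ?_
      exact zpow_mem_of_mem (t.x_mem_L j k) (t.x_inv_mem_L (Finset.ne_of_mem_erase hk)) _
    have e1 : aeval t.x (t.F i) / t.x j ^ e =
        hat (t.F i) a t.x * ∏ k ∈ Finset.univ.erase j, t.x k ^ (- a k) := by
      rw [hat, ← Finset.mul_prod_erase Finset.univ (fun k => t.x k ^ a k) (Finset.mem_univ j)]
      have e2 : (∏ k ∈ Finset.univ.erase j, t.x k ^ a k) *
          ∏ k ∈ Finset.univ.erase j, t.x k ^ (- a k) = 1 := by
        rw [← Finset.prod_mul_distrib]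
        refine Finset.prod_eq_one fun k _ => ?_
        rw [← zpow_add₀ (t.x_ne_zero k), add_neg_cancel, zpow_zero]
      have e3 : t.x j ^ a j = (t.x j ^ e)⁻¹ := by
        rw [← zpow_natCast, ← zpow_neg]; congr 1; omega
      rw [e3]
      calc aeval t.x (t.F i) / t.x j ^ e = (t.x j ^ e)⁻¹ * aeval t.x (t.F i) * 1 := by ring
        _ = _ := by rw [← e2]; ring
    rw [e1]
    exact mul_mem h2 h3
  have h4 := t.pole_dvd j (t.F i) e h1
  have h5 : t.F j ∣ aeval (Function.update X j 0) (t.F i) :=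
    (dvd_pow_self _ he0).trans h4
  have h6 : aeval (Function.update X j (0 : MvPolynomial (Fin n) R)) (t.F i) ≠ 0 := by
    rw [Ne, aeval_zero_eq_zero_iff]
    exact t.not_X_dvd i j
  exact notMem_vars_of_dvd h5 h6 (aeval_zero_notMem_of_notMem (t.notMem_vars i)) hB

/-- `hat` with `x j` replaced by zero -/
theorem hat_zero (P : MvPolynomial (Fin n) R) (a : Fin n → ℤ) (y : Fin n → K) {j : Fin n}
    (haj : a j = 0) :
    hat P a (Function.update y j 0) = (∏ k, y k ^ a k) *
      aeval y (aeval (Function.update X j 0) P : MvPolynomial (Fin n) R) := by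
  rw [hat, aeval_update_zero]
  congr 1
  refine Finset.prod_congr rfl fun k _ => ?_
  by_cases hk : k = j
  · subst hk; rw [haj, zpow_zero, zpow_zero]
  · rw [Function.update_of_ne hk]

end ufd

end Mut

end Pool.Agent.Helper98.LP
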