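import Pool.Agent.Helper98.LP.C2_Mutation

/-! Module C, third part: case B and the invariance of `U` under mutation. -/

set_option linter.unusedSectionVars false

open MvPolynomial

namespace Pool.Agent.Helper98.LP

variable {R : Type*} [CommRing R] [IsDomain R] [UniqueFactorizationMonoid R]
  {n : ℕ} {K : Type*} [Field K] [Algebra R K]

namespace Mut

variable {i : Fin n} {a : Fin n → ℤ} {t s : Seed R n K}

/-- the coefficient of the monomial `M` is not divisible by `F' j` -/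
theorem not_dvd_C (H : Mut i a t s) {j : Fin n} (hj : j ≠ i) (hB : i ∈ (t.F j).vars)
    {c : MvPolynomial (Fin n) R} {r : R} {m : Fin n → ℤ} (hc0 : c ≠ 0) (hci : i ∉ c.vars)
    {Pj : MvPolynomial (Fin n) R} (hP0 : Pj ≠ 0) (hPi : i ∉ Pj.vars)
    (hFj : aeval s.x (s.F j) =
        (algebraMap R K r * ∏ k, s.x k ^ m k) *
          (aeval (Function.update t.x i ((∏ k, t.x k ^ a k) * aeval t.x Pj / s.x i))
            (t.F j) / aeval t.x c)) :
    ¬ s.F j ∣ C r := by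
  intro hdvd
  obtain ⟨r', hr'⟩ := hdvd
  set α : K := (∏ k, t.x k ^ a k) * aeval t.x Pj / s.x i with hα
  -- the denominator of the monomial
  obtain ⟨b, hb⟩ : ∃ b : Fin n → ℕ, ∀ k, a k = - (b k : ℤ) := by
    refine ⟨fun k => (- a k).toNat, fun k => ?_⟩
    have := H.ha.2.1 k
    simp only
    omega
  have hbi : b i = 0 := by
    have := hb i; rw [H.ha.1] at this; omega
  set B : MvPolynomial (Fin n) R := ∏ k, X k ^ b k with hBdef
  have hB0 : B ≠ 0 := Finset.prod_ne_zero_iff.2 fun k _ => pow_ne_zero _ (X_ne_zero k)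
  have hBi : i ∉ B.vars := by
    have h1 : B ∈ supported R ({i}ᶜ : Set (Fin n)) := by
      refine prod_mem fun k _ => ?_
      by_cases hk : k = i
      · subst hk; rw [hbi, pow_zero]; exact one_mem _
      · exact pow_mem (X_mem_supported.2 hk) _
    rw [mem_supported] at h1
    intro h; exact h1 h rfl
  have hsx0 : s.x i ≠ 0 := s.x_ne_zero i
  have hmono : (∏ k, t.x k ^ a k) = (aeval s.x B)⁻¹ := by
    rw [← H.mono_eq, hBdef, map_prod, ← Finset.prod_inv_distrib]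
    refine Finset.prod_congr rfl fun k _ => ?_
    rw [map_pow, aeval_X, hb k, zpow_neg, zpow_natCast]
  have hPs : aeval t.x Pj = aeval s.x Pj := (H.aeval_eq hPi).symm
  have hB0' : aeval s.x B ≠ 0 := s.aeval_ne_zero hB0
  have hP0' : aeval s.x Pj ≠ 0 := s.aeval_ne_zero hP0
  have hα' : α = aeval s.x Pj / aeval s.x B / s.x i := by
    rw [hα, hmono, hPs]
    field_simp
  set y : Fin n → K := Function.update s.x i α with hy
  have hyAI : AlgebraicIndependent R y := by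
    rw [hy, hα']
    exact algebraicIndependent_update_div s.algInd i hP0 hB0 hPi hBi hsx0
  have hyt : Function.update t.x i α = y := by
    funext k
    by_cases hk : k = i
    · subst hk; rw [hy, Function.update_self, Function.update_self]
    · rw [hy, Function.update_of_ne hk, Function.update_of_ne hk, H.x_ne hk]
  rw [hyt] at hFj
  have hyn : ∀ P : MvPolynomial (Fin n) R, i ∉ P.vars → aeval y P = aeval s.x P := fun P hP => by
    rw [hy, aeval_update_of_notMem hP]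
  have hct : aeval t.x c = aeval s.x c := (H.aeval_eq hci).symm
  have hc0' : aeval s.x c ≠ 0 := s.aeval_ne_zero hc0
  have hsf0 : aeval s.x (s.F j) ≠ 0 := s.f_ne_zero j
  have hFjy : aeval y (t.F j) ≠ 0 := by
    intro h0
    apply hsf0
    rw [hFj, h0, zero_div, mul_zero]
  have hr0 : r ≠ 0 := by
    rintro rfl
    apply hsf0
    rw [hFj, map_zero, zero_mul, zero_mul]
  -- `r'` is a constant
  have hr'i : i ∉ r'.vars := by
    refine notMem_vars_of_dvd (Q := C r) ⟨s.F j, by rw [hr']; ring⟩ ?_ (by rw [vars_C]; simp)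
    rwa [Ne, C_eq_zero]
  have hm0 : ∏ k, s.x k ^ m k ≠ 0 :=
    Finset.prod_ne_zero_iff.2 fun k _ => zpow_ne_zero _ (s.x_ne_zero k)
  -- main identity
  have e1 : aeval s.x c = aeval s.x r' * (∏ k, s.x k ^ m k) * aeval y (t.F j) := by
    have h1 : algebraMap R K r = aeval s.x (s.F j) * aeval s.x r' := by
      rw [← map_mul, ← hr', aeval_C]
    rw [hct, h1] at hFj
    have h2 : aeval s.x (s.F j) * aeval s.x c =
        aeval s.x (s.F j) * (aeval s.x r' * (∏ k, s.x k ^ m k) * aeval y (t.F j)) := by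
      conv_lhs => rw [hFj]
      field_simp
    exact mul_left_cancel₀ hsf0 h2
  -- the monomial part, in terms of `y`
  have hyi : y i = aeval s.x Pj / aeval s.x B / s.x i := by
    rw [hy, Function.update_self, hα']
  have hyi0 : y i ≠ 0 := hyAI.ne_zero i
  have hsxi : s.x i = aeval y Pj * (aeval y B)⁻¹ * (y i)⁻¹ := by
    rw [hyn _ hPi, hyn _ hBi, hyi]
    field_simp
  have hyk : ∀ k, k ≠ i → s.x k = y k := fun k hk => by
    rw [hy, Function.update_of_ne hk]
  have hBinv : (aeval y B)⁻¹ ∈ Laur R y := by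
    rw [hBdef, map_prod, ← Finset.prod_inv_distrib]
    refine prod_mem fun k _ => ?_
    rw [map_pow, aeval_X, ← inv_pow]
    exact pow_mem (inv_mem_Laur _ _) _
  set N : ℕ := (m i).natAbs with hN
  have hPy0 : aeval y Pj ≠ 0 := by rw [hyn _ hPi]; exact hP0'
  -- `P^N * (s.x i)^(m i)` is a Laurent polynomial in `y`
  have h3 : aeval y Pj ^ N * s.x i ^ m i ∈ Laur R y := by
    have h4 : s.x i ^ m i = aeval y Pj ^ m i * ((aeval y B)⁻¹ ^ m i) * ((y i)⁻¹ ^ m i) := by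
      conv_lhs => rw [hsxi]
      rw [mul_zpow, mul_zpow]
    obtain ⟨M, hM⟩ : ∃ M : ℕ, (N : ℤ) + m i = M := by
      refine ⟨((N : ℤ) + m i).toNat, ?_⟩
      omega
    have h5 : aeval y Pj ^ N * aeval y Pj ^ m i = aeval y Pj ^ M := by
      rw [← zpow_natCast, ← zpow_natCast, ← zpow_add₀ hPy0, hM]
    have h6 : aeval y Pj ^ N * s.x i ^ m i =
        aeval y Pj ^ M * ((aeval y B)⁻¹ ^ m i) * ((y i)⁻¹ ^ m i) := by
      rw [h4, ← h5]; ring
    rw [h6]
    refine mul_mem (mul_mem (pow_mem (aeval_mem_Laur _ _) _) ?_) ?_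
    · exact zpow_mem_of_mem hBinv (by rw [inv_inv]; exact aeval_mem_Laur _ _) _
    · exact zpow_mem_of_mem (inv_mem_Laur _ _) (by rw [inv_inv]; exact mem_Laur _ _) _
  -- the quotient
  have h7 : aeval y (c * Pj ^ N) / aeval y (t.F j) ^ 1 ∈ Laur R y := by
    have h8 : aeval y (c * Pj ^ N) / aeval y (t.F j) ^ 1 =
        aeval y r' * (∏ k ∈ Finset.univ.erase i, s.x k ^ m k) *
          (aeval y Pj ^ N * s.x i ^ m i) := by
      rw [map_mul, map_pow, hyn _ hci, e1, ← hyn _ hr'i,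
        ← Finset.mul_prod_erase Finset.univ (fun k => s.x k ^ m k) (Finset.mem_univ i)]
      field_simp
    rw [h8]
    refine mul_mem (mul_mem (aeval_mem_Laur _ _) (prod_mem fun k hk => ?_)) h3
    rw [hyk k (Finset.ne_of_mem_erase hk)]
    exact zpow_mem_of_mem (mem_Laur _ _) (inv_mem_Laur _ _) _
  rw [aeval_div_pow_mem_Laur_iff hyAI (t.F_prime j) (t.F_not_dvd_X j), pow_one] at h7
  rcases (t.F_prime j).dvd_or_dvd h7 with h9 | h9
  · exact notMem_vars_of_dvd h9 hc0 hci hB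
  · exact notMem_vars_of_dvd ((t.F_prime j).dvd_of_dvd_pow h9) hP0 hPi hB

/-- case B of (2b) -/
theorem caseB (H : Mut i a t s) {j : Fin n} (hj : j ≠ i) (hB : i ∈ (t.F j).vars) :
    ((∀ k, t.x k ∈ s.O j) ∧ (∀ k, k ≠ j → (t.x k)⁻¹ ∈ s.O j) ∧ t.f j / t.x j ∈ s.O j) ∧
    ((∀ k, s.x k ∈ t.O j) ∧ (∀ k, k ≠ j → (s.x k)⁻¹ ∈ t.O j) ∧ s.f j / s.x j ∈ t.O j) := by
  have haj := H.a_eq_zero hj hB
  obtain ⟨c, r, m, hc0, hci, hcj, -, hmj, hFj, hrel⟩ := (H.hF j).2 hB
  obtain ⟨Q, hQ⟩ := exists_eq_aeval_zero_add j (t.F i)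
  rw [hat_zero _ _ _ haj] at hFj
  set Pj : MvPolynomial (Fin n) R := aeval (Function.update X j 0) (t.F i) with hPj
  have hP0 : Pj ≠ 0 := by
    rw [hPj, Ne, aeval_zero_eq_zero_iff]
    exact t.not_X_dvd i j
  have hPi : i ∉ Pj.vars := aeval_zero_notMem_of_notMem (t.notMem_vars i)
  have hPjj : j ∉ Pj.vars := aeval_zero_notMem j _
  have hnd := H.not_dvd_C hj hB hc0 hci hP0 hPi hFj
  have hxj : s.x j = t.x j := H.x_ne hj
  have hxj0 : t.x j ≠ 0 := t.x_ne_zero j
  have hsi0 : s.x i ≠ 0 := s.x_ne_zero i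
  have hct : aeval t.x c = aeval s.x c := (H.aeval_eq hci).symm
  have hc0' : aeval s.x c ≠ 0 := s.aeval_ne_zero hc0
  have hPs : aeval t.x Pj = aeval s.x Pj := (H.aeval_eq hPi).symm
  have hmm0 : ∏ k, s.x k ^ m k ≠ 0 :=
    Finset.prod_ne_zero_iff.2 fun k _ => zpow_ne_zero _ (s.x_ne_zero k)
  have hsf0 : s.f j ≠ 0 := s.f_ne_zero j
  have htf0 : t.f j ≠ 0 := t.f_ne_zero j
  change s.f j = _ at hFj
  set mono : K := ∏ k, t.x k ^ a k with hmono
  have hmono0 : mono ≠ 0 := mono_ne a t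
  set α : K := mono * aeval t.x Pj / s.x i with hα
  set β : K := mono * aeval s.x Q / s.x i with hβ
  set G : K := aeval (Function.update t.x i α) (t.F j) with hG
  have hr0 : algebraMap R K r ≠ 0 := by
    intro h0
    apply hsf0
    rw [hFj, h0, zero_mul, zero_mul]
  -- `F_i(x)` in terms of `s`
  have hfi : t.f i = aeval s.x Pj + s.x j * aeval s.x Q := by
    have h1 : t.f i = aeval s.x (t.F i) := (H.aeval_eq (t.notMem_vars i)).symm
    rw [h1]
    conv_lhs => rw [hQ]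
    rw [map_add, map_mul, aeval_X]
  have hti : α + s.x j * β = t.x i := by
    rw [H.t_x_self, hat_t, hfi, hα, hβ, hPs]
    ring
  have hup : Function.update t.x i (α + s.x j * β) = t.x := by
    rw [hti, Function.update_eq_self]
  -- the monomial
  have hmonoL : ∀ (S : Subalgebra R K), (∀ k, k ≠ i → k ≠ j → t.x k ∈ S ∧ (t.x k)⁻¹ ∈ S) →
      mono ∈ S ∧ mono⁻¹ ∈ S := by
    intro S h
    have h' : ∀ k, a k ≠ 0 → t.x k ∈ S ∧ (t.x k)⁻¹ ∈ S := by
      intro k hk
      refine h k ?_ ?_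
      · rintro rfl; exact hk H.ha.1
      · rintro rfl; exact hk haj
    exact ⟨prod_zpow_mem h', prod_zpow_inv_mem h'⟩
  have hmonos : mono ∈ s.L j ∧ mono⁻¹ ∈ s.L j := hmonoL _ fun k hki hkj => by
    rw [← H.x_ne hki]; exact ⟨s.x_mem_L j k, s.x_inv_mem_L hkj⟩
  have hmonot : mono ∈ t.L j ∧ mono⁻¹ ∈ t.L j := hmonoL _ fun k hki hkj =>
    ⟨t.x_mem_L j k, t.x_inv_mem_L hkj⟩
  -- `F_i(x)` is a unit of `s.O j`
  have hfi1 : t.f i ∈ s.L j := by
    rw [hfi]
    exact add_mem (s.aeval_mem_L j _) (mul_mem (s.x_mem_L j j) (s.aeval_mem_L j _))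
  have hfi2 : t.f i / s.f j ∉ s.L j := by
    intro h
    have h1 : aeval s.x Pj / s.f j ^ 1 ∈ s.L j := by
      have h2 : aeval s.x Pj / s.f j ^ 1 =
          t.f i / s.f j - (s.x j / s.f j) * aeval s.x Q := by
        rw [hfi]
        field_simp
        ring
      rw [h2]
      exact sub_mem h (mul_mem (s.T_mem_L j) (s.aeval_mem_L j _))
    rw [s.aeval_div_f_pow_mem_L j hPjj, pow_one] at h1
    exact (s.irreducible j).not_isUnit (hrel dvd_rfl h1)
  have hhatO : hat (t.F i) a t.x ∈ s.O j ∧ (hat (t.F i) a t.x)⁻¹ ∈ s.O j := by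
    rw [hat_t, mul_inv]
    exact ⟨mul_mem (s.L_le_O j hmonos.1) (s.L_le_O j hfi1),
      mul_mem (s.L_le_O j hmonos.2) (s.inv_mem_O j hfi1 hfi2)⟩
  have hA := H.x_mem_O hj hhatO.1 hhatO.2
  have hBx := H.x_mem_O' hj (H.hat_mem_O hj).1 (H.hat_mem_O hj).2
  refine ⟨⟨hA.1, hA.2, ?_⟩, hBx.1, hBx.2, ?_⟩
  · -- `F_j(x)/x_j ∈ s.O j`
    obtain ⟨Γ, hΓ, hΓe⟩ := exists_aeval_update_sub (S := s.L j) (y := t.x) (i := i) (α := α)
      (β := β) (δ := s.x j) (fun k hk => by rw [← H.x_ne hk]; exact s.x_mem_L j k)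
      (by
        rw [hα, hPs, div_eq_mul_inv]
        exact mul_mem (mul_mem hmonos.1 (s.aeval_mem_L j _)) (s.x_inv_mem_L hj.symm))
      (by
        rw [hβ, div_eq_mul_inv]
        exact mul_mem (mul_mem hmonos.1 (s.aeval_mem_L j _)) (s.x_inv_mem_L hj.symm))
      (s.x_mem_L j j) (t.F j)
    rw [hup] at hΓe
    change t.f j = G + s.x j * Γ at hΓe
    have e1 : t.f j / t.x j = (s.f j / s.x j) * aeval s.x c * (algebraMap R K r)⁻¹ *
        (∏ k, s.x k ^ m k)⁻¹ + Γ := by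
      rw [hΓe, hFj, hct, hxj]
      field_simp
    rw [e1]
    have hr : (algebraMap R K r)⁻¹ ∈ s.O j := by
      refine s.inv_mem_O j (Subalgebra.algebraMap_mem _ _) fun h => hnd ?_
      have h1 : aeval s.x (C r : MvPolynomial (Fin n) R) / s.f j ^ 1 ∈ s.L j := by
        rwa [aeval_C, pow_one]
      rwa [s.aeval_div_f_pow_mem_L j (by rw [vars_C]; simp), pow_one] at h1
    refine add_mem (mul_mem (mul_mem (s.L_le_O j (mul_mem (s.y_mem_L j) (s.aeval_mem_L j _))) hr)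
      (s.L_le_O j ?_)) (s.L_le_O j hΓ)
    refine prod_zpow_inv_mem fun k hk => ⟨s.x_mem_L j k, s.x_inv_mem_L ?_⟩
    rintro rfl; exact hk hmj
  · -- `F'_j(x')/x_j ∈ t.O j`
    obtain ⟨Γ, hΓ, hΓe⟩ := exists_aeval_update_sub (S := t.O j) (y := t.x) (i := i) (α := α)
      (β := β) (δ := s.x j) (fun k hk => t.L_le_O j (t.x_mem_L j k))
      (by
        rw [hα, div_eq_mul_inv]
        exact mul_mem (t.L_le_O j (mul_mem hmonot.1 (t.aeval_mem_L j _))) (hBx.2 i hj.symm))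
      (by
        rw [hβ, div_eq_mul_inv]
        exact mul_mem (mul_mem (t.L_le_O j hmonot.1) (aeval_mem_of_vars fun k _ => hBx.1 k))
          (hBx.2 i hj.symm))
      (hBx.1 j) (t.F j)
    rw [hup] at hΓe
    change t.f j = G + s.x j * Γ at hΓe
    have e1 : s.f j / s.x j = algebraMap R K r * (∏ k, s.x k ^ m k) * (aeval t.x c)⁻¹ *
        (t.f j / t.x j - Γ) := by
      rw [hΓe, hFj, hct, hxj]
      field_simp
      ring
    rw [e1]
    have hc : (aeval t.x c)⁻¹ ∈ t.O j := by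
      refine t.inv_mem_O j (t.aeval_mem_L j _) fun h => ?_
      have h1 : aeval t.x c / t.f j ^ 1 ∈ t.L j := by rwa [pow_one]
      rw [t.aeval_div_f_pow_mem_L j hcj, pow_one] at h1
      exact notMem_vars_of_dvd h1 hc0 hci hB
    refine mul_mem (mul_mem (mul_mem (Subalgebra.algebraMap_mem _ _) ?_) hc)
      (sub_mem (t.L_le_O j (t.y_mem_L j)) hΓ)
    refine prod_zpow_mem fun k hk => ⟨hBx.1 k, hBx.2 k ?_⟩
    rintro rfl; exact hk hmj

theorem caseAB (H : Mut i a t s) {j : Fin n} (hj : j ≠ i) :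
    ((∀ k, t.x k ∈ s.O j) ∧ (∀ k, k ≠ j → (t.x k)⁻¹ ∈ s.O j) ∧ t.f j / t.x j ∈ s.O j) ∧
    ((∀ k, s.x k ∈ t.O j) ∧ (∀ k, k ≠ j → (s.x k)⁻¹ ∈ t.O j) ∧ s.f j / s.x j ∈ t.O j) := by
  by_cases hB : i ∈ (t.F j).vars
  · exact H.caseB hj hB
  · exact H.caseA hj hB

theorem U_eq (H : Mut i a t s) : t.U = s.U := by
  apply le_antisymm
  · exact U_le_of H.L_eq.le H.L_eq'.ge fun j hj => (H.caseAB hj).1
  · exact U_le_of (i := i) H.L_eq'.le H.L_eq.ge fun j hj => (H.caseAB hj).2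

end Mut

theorem IsMutation.U_eq {i : Fin n} {t t' : Seed R n K} (h : IsMutation i t t') :
    t.U = t'.U := by
  obtain ⟨a, s, ha, hx, hF, he⟩ := h
  rw [(Mut.mk ha hx hF : Mut i a t s).U_eq, he.U_eq]

end Pool.Agent.Helper98.LP
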