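import Pool.Agent.Helper98.LP.B_Upper

/-! Module C: `U` is invariant under mutation and under equivalence. -/

set_option linter.unusedSectionVars false

open MvPolynomial

namespace Pool.Agent.Helper98.LP

section general

variable {R : Type*} [CommRing R] {n : ℕ} {K : Type*} [Field K] [Algebra R K]

theorem unit_inv (u : Rˣ) : (algebraMap R K u)⁻¹ = algebraMap R K (u⁻¹ : Rˣ) := by
  have h : algebraMap R K u * algebraMap R K (u⁻¹ : Rˣ) = 1 := by
    rw [← map_mul, Units.mul_inv, map_one]
  exact inv_eq_of_mul_eq_one_right h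

theorem unit_ne_zero (u : Rˣ) : algebraMap R K u ≠ 0 := by
  have h : algebraMap R K u * algebraMap R K (u⁻¹ : Rˣ) = 1 := by
    rw [← map_mul, Units.mul_inv, map_one]
  exact left_ne_zero_of_mul (h ▸ one_ne_zero)

theorem Laur_le_of_unit {w w' : Fin n → K}
    (h : ∀ k, ∃ u : Rˣ, w k = algebraMap R K u * w' k) : Laur R w ≤ Laur R w' := by
  refine Laur_le (fun k => ?_) fun k => ?_
  · obtain ⟨u, hu⟩ := h k
    rw [hu]
    exact mul_mem (Subalgebra.algebraMap_mem _ _) (mem_Laur _ _)
  · obtain ⟨u, hu⟩ := h k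
    rw [hu, mul_inv, unit_inv]
    exact mul_mem (Subalgebra.algebraMap_mem _ _) (inv_mem_Laur _ _)

theorem Seed.Equiv.symm {t t' : Seed R n K} (h : Seed.Equiv t t') : Seed.Equiv t' t := by
  intro i
  obtain ⟨⟨u, hu⟩, v, hv⟩ := h i
  refine ⟨⟨u⁻¹, ?_⟩, v⁻¹, ?_⟩
  · rw [hu, ← unit_inv, inv_mul_cancel_left₀ (unit_ne_zero u)]
  · rw [hv, ← unit_inv, inv_mul_cancel_left₀ (unit_ne_zero v)]

theorem Seed.Equiv.U_le {t t' : Seed R n K} (h : Seed.Equiv t t') : t.U ≤ t'.U := by
  intro f hf
  rw [Seed.mem_U] at hf ⊢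
  refine ⟨Laur_le_of_unit (fun k => (h k).1) hf.1, fun j => ?_⟩
  refine Laur_le_of_unit (fun k => ?_) (hf.2 j)
  by_cases hk : k = j
  · subst hk
    obtain ⟨⟨u, hu⟩, v, hv⟩ := h k
    refine ⟨u * v⁻¹, ?_⟩
    rw [Seed.w_self, Seed.w_self, hu]
    change _ / aeval t.x (t.F k) = _ * (_ / aeval t'.x (t'.F k))
    rw [hv, Units.val_mul, map_mul, ← unit_inv]
    have := unit_ne_zero (K := K) v
    by_cases h0 : aeval t'.x (t'.F k) = 0
    · rw [h0]; simp
    · field_simp
  · rw [Seed.w_of_ne _ hk, Seed.w_of_ne _ hk]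
    exact (h k).1

theorem Seed.Equiv.U_eq {t t' : Seed R n K} (h : Seed.Equiv t t') : t.U = t'.U :=
  le_antisymm h.U_le h.symm.U_le

theorem prod_zpow_mem {S : Subalgebra R K} {x : Fin n → K} {a : Fin n → ℤ}
    (h : ∀ k, a k ≠ 0 → x k ∈ S ∧ (x k)⁻¹ ∈ S) : ∏ k, x k ^ a k ∈ S := by
  refine prod_mem fun k _ => ?_
  by_cases hk : a k = 0
  · rw [hk, zpow_zero]; exact one_mem _
  · exact zpow_mem_of_mem (h k hk).1 (h k hk).2 _

theorem prod_zpow_inv_mem {S : Subalgebra R K} {x : Fin n → K} {a : Fin n → ℤ}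
    (h : ∀ k, a k ≠ 0 → x k ∈ S ∧ (x k)⁻¹ ∈ S) : (∏ k, x k ^ a k)⁻¹ ∈ S := by
  rw [← Finset.prod_inv_distrib]
  refine prod_mem fun k _ => ?_
  by_cases hk : a k = 0
  · rw [hk, zpow_zero, inv_one]; exact one_mem _
  · rw [← zpow_neg]
    exact zpow_mem_of_mem (h k hk).1 (h k hk).2 _

theorem aeval_zero_notMem_of_notMem [Nontrivial R] {i k : Fin n} {P : MvPolynomial (Fin n) R}
    (h : k ∉ P.vars) : k ∉ (aeval (Function.update X i 0) P : MvPolynomial (Fin n) R).vars := by
  have h1 : P ∈ supported R ({k}ᶜ : Set (Fin n)) := by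
    rw [mem_supported]
    intro l hl
    rintro rfl
    exact h hl
  have h2 : (aeval (Function.update X i 0) P : MvPolynomial (Fin n) R) ∈
      supported R ({k}ᶜ : Set (Fin n)) := by
    rw [supported_eq_adjoin_X] at h1
    have h3 : (aeval (Function.update X i 0) P : MvPolynomial (Fin n) R) ∈
        (Algebra.adjoin R (X '' ({k}ᶜ : Set (Fin n)))).map (aeval (Function.update X i 0)) :=
      ⟨P, h1, rfl⟩
    rw [AlgHom.map_adjoin] at h3
    refine (Algebra.adjoin_le ?_ : _ ≤ supported R ({k}ᶜ : Set (Fin n))) h3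
    rintro _ ⟨_, ⟨l, hl, rfl⟩, rfl⟩
    rw [aeval_X]
    by_cases hli : l = i
    · subst hli; rw [Function.update_self]; exact zero_mem _
    · rw [Function.update_of_ne hli]; exact X_mem_supported.2 hl
  rw [mem_supported] at h2
  intro hk
  exact h2 hk rfl

theorem aeval_congr_of_vars {y z : Fin n → K} {P : MvPolynomial (Fin n) R}
    (h : ∀ k ∈ P.vars, y k = z k) : aeval y P = aeval z P := by
  rw [aeval_def, aeval_def]
  exact eval₂Hom_congr' rfl (fun k hk _ => h k hk) rfl

theorem aeval_update_zero (y : Fin n → K) (j : Fin n) (P : MvPolynomial (Fin n) R) :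
    aeval (Function.update y j 0) P =
      aeval y (aeval (Function.update X j 0) P : MvPolynomial (Fin n) R) := by
  rw [comp_aeval_apply]
  congr 2
  funext k
  by_cases hk : k = j
  · subst hk; rw [Function.update_self, Function.update_self, map_zero]
  · rw [Function.update_of_ne hk, Function.update_of_ne hk, aeval_X]

/-- Taylor-type statement -/
theorem exists_aeval_update_sub {S : Subalgebra R K} {y : Fin n → K} {i : Fin n} {α β δ : K}
    (hy : ∀ k, k ≠ i → y k ∈ S) (hα : α ∈ S) (hβ : β ∈ S) (hδ : δ ∈ S)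
    (P : MvPolynomial (Fin n) R) :
    ∃ Γ ∈ S, aeval (Function.update y i (α + δ * β)) P =
      aeval (Function.update y i α) P + δ * Γ := by
  have hmem : ∀ Q : MvPolynomial (Fin n) R, aeval (Function.update y i α) Q ∈ S := by
    intro Q
    refine aeval_mem_of_vars fun k _ => ?_
    by_cases hk : k = i
    · subst hk; rw [Function.update_self]; exact hα
    · rw [Function.update_of_ne hk]; exact hy k hk
  induction P using MvPolynomial.induction_on with
  | C a => exact ⟨0, zero_mem _, by simp⟩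
  | add p q hp hq =>
    obtain ⟨Γ1, h1, e1⟩ := hp
    obtain ⟨Γ2, h2, e2⟩ := hq
    refine ⟨Γ1 + Γ2, add_mem h1 h2, ?_⟩
    rw [map_add, map_add, e1, e2]; ring
  | mul_X p k hp =>
    obtain ⟨Γ, h1, e1⟩ := hp
    rw [map_mul, map_mul, e1, aeval_X, aeval_X]
    by_cases hk : k = i
    · subst hk
      rw [Function.update_self, Function.update_self]
      refine ⟨aeval (Function.update y k α) p * β + Γ * (α + δ * β), ?_, by ring⟩
      exact add_mem (mul_mem (hmem p) hβ) (mul_mem h1 (add_mem hα (mul_mem hδ hβ)))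
    · rw [Function.update_of_ne hk, Function.update_of_ne hk]
      exact ⟨Γ * y k, mul_mem h1 (hy k hk), by ring⟩

end general

variable {R : Type*} [CommRing R] [IsDomain R]
  {n : ℕ} {K : Type*} [Field K] [Algebra R K]

/-- transport of the condition that defines the exponents of `F̂ i` -/
theorem hat_transport {F : Fin n → MvPolynomial (Fin n) R} {i : Fin n} {a : Fin n → ℤ}
    (ha : IsHatExponent F i a) {j : Fin n} (hj : j ≠ i) (hF0 : F j ≠ 0)
    (hFj : j ∉ (F j).vars) {x : Fin n → K} (hx : AlgebraicIndependent R x) :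
    hat (F i) a x ∈ Laur R (Function.update x j (aeval x (F j) / x j)) ∧
    hat (F i) a x / aeval x (F j) ∉ Laur R (Function.update x j (aeval x (F j) / x j)) := by
  have hxj : x j ≠ 0 := hx.ne_zero j
  have hinjx : Function.Injective (aeval x : MvPolynomial (Fin n) R →ₐ[R] K) := hx
  have hf0 : aeval x (F j) ≠ 0 := fun h => hF0 (hinjx (by rw [h, map_zero]))
  set v : Fin n → K := Function.update x j (aeval x (F j) / x j) with hv
  have hvAI : AlgebraicIndependent R v := by
    have h := algebraicIndependent_update_div hx j (A := F j) (B := 1) hF0 one_ne_zero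
      hFj (by simp) hxj
    rwa [map_one, div_one] at h
  have hinj : Function.Injective (aeval v : MvPolynomial (Fin n) R →ₐ[R] K) := hvAI
  let φ : FractionRing (MvPolynomial (Fin n) R) →ₐ[R] K := IsFractionRing.liftAlgHom hinj
  have hφ : ∀ P : MvPolynomial (Fin n) R,
      φ (algebraMap (MvPolynomial (Fin n) R) _ P) = aeval v P := fun P =>
    IsFractionRing.lift_algebraMap hinj P
  have hφinj : Function.Injective φ := φ.toRingHom.injective
  have hφv : ∀ k, φ (fvar R n k) = v k := by
    intro k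
    rw [fvar, hφ, aeval_X]
  have hφP : ∀ P : MvPolynomial (Fin n) R, φ (aeval (fvar R n) P) = aeval v P := by
    intro P
    rw [comp_aeval_apply]
    congr 2
    funext k
    exact hφv k
  have hvf : aeval v (F j) = aeval x (F j) := aeval_update_of_notMem hFj
  have hhat : φ (hat (F i) a
      (Function.update (fvar R n) j (aeval (fvar R n) (F j) / fvar R n j))) = hat (F i) a x := by
    have hy : ∀ k, φ (Function.update (fvar R n) j
        (aeval (fvar R n) (F j) / fvar R n j) k) = x k := by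
      intro k
      by_cases hk : k = j
      · subst hk
        rw [Function.update_self, map_div₀, hφP, hφv, hvf, hv, Function.update_self]
        field_simp
      · rw [Function.update_of_ne hk, hφv, hv, Function.update_of_ne hk]
    rw [hat, hat, map_mul, map_prod, comp_aeval_apply]
    congr 1
    · refine Finset.prod_congr rfl fun k _ => ?_
      rw [map_zpow₀, hy]
    · congr 2
      funext k
      exact hy k
  have hmap : (Laur R (fvar R n)).map φ = Laur R v := by
    rw [Laur, Laur, AlgHom.map_adjoin, Set.image_union, ← Set.range_comp, ← Set.range_comp]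
    congr 3
    · funext k; exact hφv k
    · funext k; simp only [Function.comp_apply]; rw [map_inv₀, hφv]
  obtain ⟨h1, h2⟩ := ha.2.2 j hj
  constructor
  · rw [← hhat, ← hmap]
    exact ⟨_, h1, rfl⟩
  · intro h3
    apply h2
    rw [← hhat, ← hvf, ← hφP, ← map_div₀, ← hmap] at h3
    obtain ⟨z, hz, hz'⟩ := h3
    have := hφinj hz'
    rwa [this] at hz

section ufd

variable [UniqueFactorizationMonoid R]

theorem U_le_of {t s : Seed R n K} {i : Fin n} (h1 : t.L i ≤ Laur R s.x)
    (h2 : Laur R t.x ≤ s.L i)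
    (h3 : ∀ j, j ≠ i → (∀ k, t.x k ∈ s.O j) ∧ (∀ k, k ≠ j → (t.x k)⁻¹ ∈ s.O j) ∧
      t.f j / t.x j ∈ s.O j) : t.U ≤ s.U := by
  intro f hf
  rw [Seed.mem_U] at hf ⊢
  have hs : f ∈ Laur R s.x := h1 (hf.2 i)
  refine ⟨hs, fun j => ?_⟩
  by_cases hj : j = i
  · subst hj; exact h2 hf.1
  · obtain ⟨a1, a2, a3⟩ := h3 j hj
    exact s.mem_L_of_mem_O j hs (t.mem_of_mem_V j (s.O j) a1 a2 a3 hf.1 (hf.2 j))

end ufd

end Pool.Agent.Helper98.LP
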