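import Pool.Agent.Helper98.LP.B_Upper

/-! Module D: the valuation attached to a cluster variable. -/

set_option linter.unusedSectionVars false

open MvPolynomial

namespace Pool.Agent.Helper98.LP

variable {R : Type*} [CommRing R] [IsDomain R] [UniqueFactorizationMonoid R]
  {n : ℕ} {K : Type*} [Field K] [Algebra R K]

theorem exists_valuationSubring {z : Fin n → K} (hz : AlgebraicIndependent R z) (j : Fin n) :
    ∃ O : ValuationSubring K, O.valuation (z j) < 1 ∧
      ∀ P : MvPolynomial (Fin n) R, ¬ X j ∣ P → O.valuation (aeval z P) = 1 := by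
  have hinj : Function.Injective (aeval z : MvPolynomial (Fin n) R →ₐ[R] K) := hz
  set p : Ideal (MvPolynomial (Fin n) R) := Ideal.span {X j} with hp
  have hpp : p.IsPrime := (Ideal.span_singleton_prime (X_ne_zero j)).2 X_prime
  have hmem : ∀ P, P ∈ p ↔ X j ∣ P := fun P => Ideal.mem_span_singleton
  let g : MvPolynomial (Fin n) R →+* K := (aeval z : MvPolynomial (Fin n) R →ₐ[R] K)
  have hg : ∀ y : p.primeCompl, IsUnit (g y) := by
    rintro ⟨y, hy⟩
    rw [isUnit_iff_ne_zero]
    intro h
    have : y = 0 := hinj (by rw [map_zero]; exact h)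
    apply hy
    rw [this]
    exact zero_mem p
  let f : Localization.AtPrime p →+* K := IsLocalization.lift hg
  have hf : ∀ P, f (algebraMap (MvPolynomial (Fin n) R) _ P) = aeval z P := fun P => IsLocalization.lift_eq hg P
  obtain ⟨O, hO, hloc⟩ := IsLocalRing.exists_factor_valuationRing f
  refine ⟨O, ?_, fun P hP => ?_⟩
  · have h1 : ¬ IsUnit (f.codRestrict O.toSubring hO (algebraMap (MvPolynomial (Fin n) R) _ (X j))) := by
      intro h
      have h2 := hloc.map_nonunit _ h
      rw [IsLocalization.AtPrime.isUnit_to_map_iff (Localization.AtPrime p) p] at h2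
      exact h2 ((hmem _).2 dvd_rfl)
    have h3 : ¬ O.valuation ((f.codRestrict O.toSubring hO
        (algebraMap (MvPolynomial (Fin n) R) _ (X j)) : O) : K) = 1 := fun h =>
      h1 ((O.valuation_eq_one_iff _).2 h)
    have h4 := O.valuation_le_one (f.codRestrict O.toSubring hO
        (algebraMap (MvPolynomial (Fin n) R) _ (X j)))
    have h5 : ((f.codRestrict O.toSubring hO
        (algebraMap (MvPolynomial (Fin n) R) _ (X j)) : O) : K) = z j := by
      change f _ = _
      rw [hf, aeval_X]
    rw [h5] at h3 h4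
    exact lt_of_le_of_ne h4 h3
  · have h1 : IsUnit (f.codRestrict O.toSubring hO (algebraMap (MvPolynomial (Fin n) R) _ P)) := by
      apply IsUnit.map
      rw [IsLocalization.AtPrime.isUnit_to_map_iff (Localization.AtPrime p) p]
      intro h
      exact hP ((hmem _).1 h)
    have h2 := (O.valuation_eq_one_iff (f.codRestrict O.toSubring hO (algebraMap (MvPolynomial (Fin n) R) _ P))).1 h1
    have h3 : ((f.codRestrict O.toSubring hO (algebraMap (MvPolynomial (Fin n) R) _ P) : O) : K) = aeval z P := hf P
    rw [← h3]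
    exact h2

theorem not_X_dvd_of_notMem {j : Fin n} {P : MvPolynomial (Fin n) R} (hP : P ≠ 0)
    (hj : j ∉ P.vars) : ¬ X j ∣ P := by
  intro h
  have := notMem_vars_of_dvd h hP hj
  rw [vars_X] at this
  simp at this

/-- Module D, main statement -/
theorem Seed.exists_valuation (t : Seed R n K) (j : Fin n) :
    ∃ O : ValuationSubring K,
      (∀ r : R, O.valuation (algebraMap R K r) ≤ 1) ∧
      (∀ u ∈ t.U, O.valuation u < 1 → u / t.x j ∈ t.U) ∧
      (∃ y ∈ t.U, 1 < O.valuation y) := by
  obtain ⟨O, h1, h2⟩ := exists_valuationSubring t.algInd j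
  have hxj0 := t.x_ne_zero j
  have hvx0 : O.valuation (t.x j) ≠ 0 := (O.valuation.ne_zero_iff).2 hxj0
  refine ⟨O, fun r => ?_, fun u hu hlt => ?_, t.f j / t.x j, t.y_mem_U j, ?_⟩
  · by_cases hr : r = 0
    · rw [hr, map_zero, map_zero]; exact zero_le_one
    · have h3 := h2 (C r) (not_X_dvd_of_notMem (by rwa [Ne, C_eq_zero]) (by rw [vars_C]; simp))
      rw [aeval_C] at h3
      exact h3.le
  · by_cases hu0 : u = 0
    · rw [hu0, zero_div]; exact zero_mem _
    have hu' := Seed.mem_U.1 hu
    obtain ⟨m, g, hg, hug⟩ := exists_eq_monomial_mul t.x_ne_zero hu'.1 hu0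
    have hvx : ∀ k, k ≠ j → O.valuation (t.x k) = 1 := by
      intro k hk
      have := h2 (X k) (not_X_dvd_of_notMem (X_ne_zero k) (by
        rw [vars_X, Finset.mem_singleton]; exact hk.symm))
      rwa [aeval_X] at this
    have hv : O.valuation u = O.valuation (t.x j) ^ m j := by
      rw [hug, map_mul, h2 g (hg j), mul_one, map_prod,
        ← Finset.mul_prod_erase Finset.univ _ (Finset.mem_univ j)]
      rw [Finset.prod_eq_one, mul_one, map_zpow₀]
      intro k hk
      rw [map_zpow₀, hvx k (Finset.ne_of_mem_erase hk), one_zpow]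
    have hm : 0 < m j := by
      by_contra h
      push Not at h
      rw [hv] at hlt
      have h3 : 1 ≤ O.valuation (t.x j) ^ m j := by
        obtain ⟨e, he⟩ := Int.eq_ofNat_of_zero_le (a := - m j) (by omega)
        have h4 : m j = -(e : ℤ) := by omega
        rw [h4, zpow_neg, zpow_natCast]
        rw [one_le_inv₀ (pow_pos (zero_lt_iff.2 hvx0) _)]
        exact pow_le_one' h1.le _
      exact absurd hlt (not_lt.2 h3)
    have e : u / t.x j = t.x j ^ (m j - 1) * (∏ k ∈ Finset.univ.erase j, t.x k ^ m k) *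
        aeval t.x g := by
      rw [hug, ← Finset.mul_prod_erase Finset.univ _ (Finset.mem_univ j), zpow_sub₀ hxj0, zpow_one]
      ring
    refine Seed.mem_U.2 ⟨?_, fun k => ?_⟩
    · rw [div_eq_mul_inv]
      exact mul_mem hu'.1 (inv_mem_Laur _ _)
    · by_cases hk : k = j
      · subst hk
        rw [e]
        refine mul_mem (mul_mem ?_ (prod_mem fun l hl => ?_)) (t.aeval_mem_L k g)
        · obtain ⟨e', he'⟩ := Int.eq_ofNat_of_zero_le (a := m k - 1) (by omega)
          rw [he', zpow_natCast]
          exact pow_mem (t.x_mem_L k k) _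
        · exact zpow_mem_of_mem (t.x_mem_L k l) (t.x_inv_mem_L (Finset.ne_of_mem_erase hl)) _
      · rw [div_eq_mul_inv]
        exact mul_mem (hu'.2 k) (t.x_inv_mem_L (Ne.symm hk))
  · have h3 : O.valuation (t.f j) = 1 :=
      h2 (t.F j) (not_X_dvd_of_notMem (t.irreducible j).ne_zero (t.notMem_vars j))
    rw [map_div₀, h3, one_div, one_lt_inv₀ (zero_lt_iff.2 hvx0)]
    exact h1

end Pool.Agent.Helper98.LP
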