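import Mathlib

/-!
# Laurent phenomenon algebras (Lam and Pylyavskyy): the definitions

`R` is a unique factorization domain, `K` a field containing `R`
(for instance the field of rational functions in `n` variables over `Frac R`).
-/

open MvPolynomial

namespace Pool.Agent.Helper98.LP

variable {R : Type*} [CommRing R] {n : ℕ} {K : Type*} [Field K] [Algebra R K]

/-- The ring of Laurent polynomials over `R` in the elements `w 0, ..., w (n-1)` of `K`:
the `R`-subalgebra of `K` generated by all `w k` and all `(w k)⁻¹`. -/
noncomputable def Laur (R : Type*) [CommRing R] {n : ℕ} {K : Type*} [Field K] [Algebra R K]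
    (w : Fin n → K) : Subalgebra R K :=
  Algebra.adjoin R (Set.range w ∪ Set.range fun k => (w k)⁻¹)

/-- A seed in `K`: the cluster variables `x i` form a transcendence basis of `K` over `R`
(equivalently over `Frac R`); the exchange polynomial `F i` is irreducible in
`R[X_0, ..., X_(n-1)]`, is divisible by no variable, and does not involve `X i`. -/
structure Seed (R : Type*) [CommRing R] (n : ℕ) (K : Type*) [Field K] [Algebra R K] where
  /-- cluster variables -/
  x : Fin n → K
  /-- exchange polynomials -/
  F : Fin n → MvPolynomial (Fin n) R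
  basis : IsTranscendenceBasis R x
  irreducible : ∀ i, Irreducible (F i)
  not_X_dvd : ∀ i j, ¬ (X j ∣ F i)
  notMem_vars : ∀ i, i ∉ (F i).vars

/-- `hat P a y = (∏ₖ yₖ ^ aₖ) * P(y)`, the value at the point `y` of the Laurent polynomial
`(∏ₖ xₖ ^ aₖ) * P`. -/
noncomputable def hat (P : MvPolynomial (Fin n) R) (a : Fin n → ℤ) (y : Fin n → K) : K :=
  (∏ k, y k ^ a k) * aeval y P

/-- The formal variables, as elements of the field of rational functions. -/
noncomputable def fvar (R : Type*) [CommRing R] [IsDomain R] (n : ℕ) :
    Fin n → FractionRing (MvPolynomial (Fin n) R) :=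
  fun k => algebraMap (MvPolynomial (Fin n) R) _ (X k)

/-- `IsHatExponent F i a`: the exponents `a k ≤ 0` (with `a i = 0`) are the ones that define
`F̂ i = (∏_{k ≠ i} xₖ ^ aₖ) * F i`.  For every `j ≠ i`, replacing `x j` by `F j / x` in `F̂ i`
(the new variable `x` is again called `x j` here) gives a Laurent polynomial over `R` in `x` and
the other `x k`, and this Laurent polynomial is not divisible by `F j`. -/
def IsHatExponent [IsDomain R] (F : Fin n → MvPolynomial (Fin n) R) (i : Fin n)
    (a : Fin n → ℤ) : Prop :=
  a i = 0 ∧ (∀ k, a k ≤ 0) ∧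
  ∀ j, j ≠ i →
    hat (F i) a (Function.update (fvar R n) j (aeval (fvar R n) (F j) / fvar R n j))
        ∈ Laur R (fvar R n) ∧
    hat (F i) a (Function.update (fvar R n) j (aeval (fvar R n) (F j) / fvar R n j))
        / aeval (fvar R n) (F j) ∉ Laur R (fvar R n)

/-- `MutF t i a t' j`: the exchange polynomial `t'.F j` of `t'` is obtained from the seed `t` by the
rule for mutation at `i`, where `a` are the exponents of `F̂ i`.
* If `F j` does not involve `x i`, then `F' j = F j` up to a unit of `R`.
* Otherwise let `G = F j` with `x i` replaced by `(F̂ i with x j replaced by 0) / x' i`;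
  let `H = G / c`, where `c` is a polynomial in the `x k`, `k ≠ i, j`, all of whose irreducible
  factors divide `F i` with `x j` replaced by `0` (so `c` is made of common factors);
  and `F' j = M * H`, where `M` is a Laurent monomial in the `x' k`, `k ≠ j`, with coefficient
  in `R`; and no common factor is left: `F' j` and `F i` with `x j` replaced by `0` are
  relatively prime. (Being a seed, `t'` has `F' j` a polynomial in the `x'`, not involving `x' j`,
  and divisible by no `x' k`.) -/
def MutF (t : Seed R n K) (i : Fin n) (a : Fin n → ℤ) (t' : Seed R n K) (j : Fin n) : Prop :=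
  (i ∉ (t.F j).vars → ∃ u : Rˣ, t'.F j = C (u : R) * t.F j) ∧
  (i ∈ (t.F j).vars →
    ∃ (c : MvPolynomial (Fin n) R) (r : R) (m : Fin n → ℤ),
      c ≠ 0 ∧ i ∉ c.vars ∧ j ∉ c.vars ∧
      (∀ p, Irreducible p → p ∣ c → p ∣ aeval (Function.update X j 0) (t.F i)) ∧
      m j = 0 ∧
      aeval t'.x (t'.F j) =
        (algebraMap R K r * ∏ k, t'.x k ^ m k) *
          (aeval (Function.update t.x i (hat (t.F i) a (Function.update t.x j 0) / t'.x i))
            (t.F j) / aeval t.x c) ∧
      IsRelPrime (t'.F j) (aeval (Function.update X j 0) (t.F i)))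

/-- Two seeds are equivalent if all `x i / x' i` and all `F i / F' i` are units of `R`. -/
def Seed.Equiv (t t' : Seed R n K) : Prop :=
  ∀ i, (∃ u : Rˣ, t.x i = algebraMap R K u * t'.x i) ∧
    ∃ u : Rˣ, aeval t.x (t.F i) = algebraMap R K u * aeval t'.x (t'.F i)

/-- `t'` is obtained from `t` by mutation at `i`; the result of a mutation is only defined up to
units of `R`. -/
def IsMutation [IsDomain R] (i : Fin n) (t t' : Seed R n K) : Prop :=
  ∃ (a : Fin n → ℤ) (s : Seed R n K), IsHatExponent t.F i a ∧
    s.x = Function.update t.x i (hat (t.F i) a t.x / t.x i) ∧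
    (∀ j, MutF t i a s j) ∧ Seed.Equiv s t'

/-- A Laurent phenomenon algebra: a mutation-connected family of seeds in `K` with one designated
mutation at each `i` for each seed of the family. -/
structure LPAlgebra (R : Type*) [CommRing R] [IsDomain R] (n : ℕ) (K : Type*) [Field K]
    [Algebra R K] where
  /-- the family of seeds -/
  seeds : Set (Seed R n K)
  /-- the designated mutations -/
  mutate : Seed R n K → Fin n → Seed R n K
  mutate_mem : ∀ t ∈ seeds, ∀ i, mutate t i ∈ seeds
  isMutation : ∀ t ∈ seeds, ∀ i, IsMutation i t (mutate t i)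
  connected : ∀ t ∈ seeds, ∀ t' ∈ seeds,
    Relation.EqvGen (fun s s' => s ∈ seeds ∧ ∃ i, s' = mutate s i) t t'

/-- The underlying algebra: the `R`-subalgebra generated by all cluster variables. -/
noncomputable def LPAlgebra.algebra [IsDomain R] (A : LPAlgebra R n K) : Subalgebra R K :=
  Algebra.adjoin R {z | ∃ t ∈ A.seeds, ∃ i, z = t.x i}

/-- Normalized: equivalent seeds coincide. -/
def LPAlgebra.IsNormalized [IsDomain R] (A : LPAlgebra R n K) : Prop :=
  ∀ t ∈ A.seeds, ∀ t' ∈ A.seeds, Seed.Equiv t t' → t = t'

/-- A seed is linear if `F i = a i + ∑_{j ≠ i} c i j * X j` with `a i, c i j ∈ R`. -/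
def Seed.IsLinear (t : Seed R n K) : Prop :=
  ∃ (a : Fin n → R) (c : Fin n → Fin n → R), ∀ i,
    t.F i = C (a i) + ∑ j ∈ Finset.univ.erase i, C (c i j) * X j

/-- A linear LP algebra is a normalized LP algebra having a linear seed. -/
def LPAlgebra.IsLinear [IsDomain R] (A : LPAlgebra R n K) : Prop :=
  A.IsNormalized ∧ ∃ t ∈ A.seeds, t.IsLinear

/-- Finite type: finitely many seeds. -/
def LPAlgebra.IsFiniteType [IsDomain R] (A : LPAlgebra R n K) : Prop :=
  A.seeds.Finite

end Pool.Agent.Helper98.LP
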