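import Pool.Agent.Helper98.LP.B_Upper

/-! Module E: the principal minors `P_J`, `D_J`. -/

set_option linter.unusedSectionVars false

open MvPolynomial

namespace Pool.Agent.Helper98.LP

section general

variable {K : Type*} [Field K] {n : ℕ}

theorem adjugate_mem_subring (S : Subring K)
    (M : Matrix (Fin n) (Fin n) K) (hM : ∀ i k, M i k ∈ S) (i k : Fin n) :
    M.adjugate i k ∈ S := by
  let M' : Matrix (Fin n) (Fin n) S := Matrix.of fun i k => ⟨M i k, hM i k⟩
  have h : M = S.subtype.mapMatrix M' := by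
    ext i k; rfl
  rw [h, ← RingHom.map_adjugate]
  exact (M'.adjugate i k).2

theorem det_mem_subring (S : Subring K)
    (M : Matrix (Fin n) (Fin n) K) (hM : ∀ i k, M i k ∈ S) : M.det ∈ S := by
  let M' : Matrix (Fin n) (Fin n) S := Matrix.of fun i k => ⟨M i k, hM i k⟩
  have h : M = S.subtype.mapMatrix M' := by
    ext i k; rfl
  rw [h, ← RingHom.map_det]
  exact M'.det.2

theorem cramer_identity (M : Matrix (Fin n) (Fin n) K)
    (w : Fin n → K) (l : Fin n) : M.det * w l = M.adjugate.mulVec (M.mulVec w) l := by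
  rw [Matrix.mulVec_mulVec, Matrix.adjugate_mul, Matrix.smul_mulVec, Matrix.one_mulVec]
  rfl

/-- Cramer's rule inside a valuation ring -/
theorem det_lt_one (O : ValuationSubring K) (M : Matrix (Fin n) (Fin n) K)
    (hM : ∀ i k, O.valuation (M i k) ≤ 1) (w : Fin n → K) (i0 : Fin n) (hw : w i0 = 1)
    (h : ∀ i, O.valuation (M.mulVec w i) < 1) : O.valuation M.det < 1 := by
  have h1 := cramer_identity M w i0
  rw [hw, mul_one] at h1
  rw [h1, Matrix.mulVec, dotProduct]
  refine Valuation.map_sum_lt' _ zero_lt_one fun k _ => ?_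
  rw [map_mul]
  have h2 : O.valuation (M.adjugate i0 k) ≤ 1 := by
    rw [O.valuation_le_one_iff]
    exact adjugate_mem_subring O.toSubring M (fun i k => (O.valuation_le_one_iff _).1 (hM i k)) i0 k
  calc O.valuation (M.adjugate i0 k) * O.valuation (M.mulVec w k)
      ≤ 1 * O.valuation (M.mulVec w k) := mul_le_mul' h2 le_rfl
    _ = O.valuation (M.mulVec w k) := one_mul _
    _ < 1 := h k

theorem det_le_one (O : ValuationSubring K) (M : Matrix (Fin n) (Fin n) K)
    (hM : ∀ i k, O.valuation (M i k) ≤ 1) : O.valuation M.det ≤ 1 := by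
  rw [O.valuation_le_one_iff]
  exact det_mem_subring O.toSubring M fun i k => (O.valuation_le_one_iff _).1 (hM i k)

end general

variable {R : Type*} [CommRing R] {n : ℕ} {K : Type*} [Field K] [Algebra R K]

/-- `N^J` -/
noncomputable def NJ (F : Fin n → MvPolynomial (Fin n) R) (c : Fin n → Fin n → R)
    (J : Finset (Fin n)) : Matrix (Fin n) (Fin n) (MvPolynomial (Fin n) R) :=
  Matrix.of fun i k => if i ∈ J then (if i = k then F i else - C (c i k) * X i)
    else (if i = k then 1 else 0)

/-- `M^J` -/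
noncomputable def MJ (t : Seed R n K) (c : Fin n → Fin n → R) (J : Finset (Fin n)) :
    Matrix (Fin n) (Fin n) K :=
  Matrix.of fun i k => if i ∈ J then (if i = k then t.f i / t.x i else - algebraMap R K (c i k))
    else (if i = k then 1 else 0)

/-- closed homogeneous set of indices -/
def ClosedHom (a : Fin n → R) (c : Fin n → Fin n → R) (B : Finset (Fin n)) : Prop :=
  ∀ k ∈ B, a k = 0 ∧ ∀ l, l ∉ B → c k l = 0

/-- set the variables in `S` to zero -/
noncomputable def zeroOn (S : Finset (Fin n)) :
    MvPolynomial (Fin n) R →ₐ[R] MvPolynomial (Fin n) R :=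
  aeval fun k => if k ∈ S then 0 else X k

theorem zeroOn_X (S : Finset (Fin n)) (k : Fin n) :
    zeroOn (R := R) S (X k) = if k ∈ S then 0 else X k := by
  rw [zeroOn, aeval_X]

theorem zeroOn_C (S : Finset (Fin n)) (r : R) : zeroOn (n := n) S (C r) = C r := by
  rw [zeroOn, aeval_C]; rfl

theorem zeroOn_insert (S : Finset (Fin n)) (k : Fin n) (P : MvPolynomial (Fin n) R) :
    zeroOn {k} (zeroOn S P) = zeroOn (insert k S) P := by
  have h : (zeroOn (R := R) {k}).comp (zeroOn S) = zeroOn (insert k S) := by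
    ext m : 1
    rw [AlgHom.comp_apply, zeroOn_X, zeroOn_X]
    by_cases hm : m ∈ S
    · rw [if_pos hm, if_pos (Finset.mem_insert_of_mem hm), map_zero]
    · rw [if_neg hm, zeroOn_X]
      by_cases hk : m = k
      · subst hk; simp
      · rw [if_neg (by simpa using hk), if_neg (by simp [hk, hm])]
  exact DFunLike.congr_fun h P

theorem zeroOn_F_ne_zero {F : Fin n → MvPolynomial (Fin n) R} {a : Fin n → R}
    {c : Fin n → Fin n → R}
    (hF : ∀ i, F i = C (a i) + ∑ j ∈ Finset.univ.erase i, C (c i j) * X j)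
    {S : Finset (Fin n)} {k : Fin n} (hk : k ∈ S)
    (h : ¬ (a k = 0 ∧ ∀ l, l ∉ S → c k l = 0)) : zeroOn S (F k) ≠ 0 := by
  classical
  intro h0
  rw [hF k, map_add, zeroOn_C, map_sum] at h0
  simp only [map_mul, zeroOn_C, zeroOn_X] at h0
  apply h
  constructor
  · have h1 := congrArg (coeff 0) h0
    rw [coeff_add, coeff_C, if_pos rfl, coeff_sum, Finset.sum_eq_zero, add_zero, coeff_zero] at h1
    · exact h1
    · intro m _
      rw [coeff_C_mul]
      split_ifs
      · simp
      · simp [coeff_X]
  · intro l hl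
    have h1 := congrArg (coeff (Finsupp.single l 1)) h0
    rw [coeff_add, coeff_C, if_neg (by
      intro h; have := DFunLike.congr_fun h l; simp at this), coeff_sum, zero_add, coeff_zero,
      Finset.sum_eq_single l] at h1
    · rw [coeff_C_mul, if_neg hl, coeff_X, if_pos rfl, mul_one] at h1
      exact h1
    · intro m _ hm
      rw [coeff_C_mul]
      split_ifs
      · simp
      · rw [coeff_X, if_neg, mul_zero]
        intro h
        exact hm (Finsupp.single_left_injective one_ne_zero h)
    · intro h2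
      exfalso
      apply h2
      refine Finset.mem_erase.2 ⟨?_, Finset.mem_univ _⟩
      rintro rfl
      exact hl hk

theorem det_NJ_ne_zero [IsDomain R] {F : Fin n → MvPolynomial (Fin n) R} {a : Fin n → R}
    {c : Fin n → Fin n → R}
    (hF : ∀ i, F i = C (a i) + ∑ j ∈ Finset.univ.erase i, C (c i j) * X j)
    (J : Finset (Fin n)) (hJ : ∀ B ⊆ J, B.Nonempty → ¬ ClosedHom a c B) :
    (NJ F c J).det ≠ 0 := by
  classical
  -- a maximal good subset
  obtain ⟨A, hA, hmax⟩ := (Set.toFinite {A : Finset (Fin n) | A ⊆ J ∧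
    zeroOn (J \ A) (NJ F c A).det ≠ 0}).exists_maximal ⟨∅, by
      refine ⟨Finset.empty_subset _, ?_⟩
      have : NJ F c ∅ = 1 := by
        ext i k
        simp [NJ, Matrix.one_apply]
      rw [this, Matrix.det_one, map_one]
      exact one_ne_zero⟩
  have hAJ : A ⊆ J := hA.1
  by_cases hEq : A = J
  · intro h0
    apply hA.2
    rw [hEq, h0, map_zero]
  exfalso
  have hne : (J \ A).Nonempty := by
    rw [Finset.sdiff_nonempty]
    intro h
    exact hEq (Finset.Subset.antisymm hAJ h)
  have hnc := hJ (J \ A) Finset.sdiff_subset hne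
  rw [ClosedHom] at hnc
  push Not at hnc
  obtain ⟨k, hk, hk'⟩ := hnc
  have hFk : zeroOn (J \ A) (F k) ≠ 0 := zeroOn_F_ne_zero hF hk (by
    rintro ⟨h1, h2⟩
    obtain ⟨l, hl, hl'⟩ := hk' h1
    exact hl' (h2 l hl))
  have hkJ : k ∈ J := (Finset.mem_sdiff.1 hk).1
  have hkA : k ∉ A := (Finset.mem_sdiff.1 hk).2
  -- the enlarged set is good as well
  have hrow : (zeroOn (J \ A)).mapMatrix (NJ F c (insert k A)) =
      ((zeroOn (J \ A)).mapMatrix (NJ F c A)).updateRow k
        (zeroOn (J \ A) (F k) • (zeroOn (J \ A)).mapMatrix (NJ F c A) k) := by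
    ext1 i m
    by_cases hik : i = k
    · subst hik
      rw [Matrix.updateRow_self]
      by_cases him : i = m
      · subst him
        simp [NJ, hkA]
      · simp [NJ, hkA, him, zeroOn_X, hkJ]
    · rw [Matrix.updateRow_ne hik]
      simp [NJ, hik]
  have hdet : zeroOn (J \ A) (NJ F c (insert k A)).det =
      zeroOn (J \ A) (F k) * zeroOn (J \ A) (NJ F c A).det := by
    rw [AlgHom.map_det, hrow, Matrix.det_updateRow_smul, Matrix.updateRow_eq_self, AlgHom.map_det]
  have hgood : zeroOn (J \ insert k A) (NJ F c (insert k A)).det ≠ 0 := by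
    intro h0
    have h1 : insert k (J \ insert k A) = J \ A := by
      ext m
      simp only [Finset.mem_insert, Finset.mem_sdiff]
      constructor
      · rintro (rfl | ⟨h1, h2⟩)
        · exact ⟨hkJ, hkA⟩
        · exact ⟨h1, fun h => h2 (Or.inr h)⟩
      · rintro ⟨h1, h2⟩
        by_cases hmk : m = k
        · exact Or.inl hmk
        · exact Or.inr ⟨h1, fun h => h.elim hmk h2⟩
    have h2 : zeroOn (J \ A) (NJ F c (insert k A)).det = 0 := by
      rw [← h1, ← zeroOn_insert, h0, map_zero]
    rw [hdet] at h2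
    exact mul_ne_zero hFk hA.2 h2
  have h3 := hmax (y := insert k A)
    ⟨Finset.insert_subset hkJ hAJ, hgood⟩ (Finset.subset_insert k A)
  exact hkA (h3 (Finset.mem_insert_self k A))

theorem prod_mul_det_MJ [IsDomain R] (t : Seed R n K) (c : Fin n → Fin n → R)
    (J : Finset (Fin n)) :
    (∏ i ∈ J, t.x i) * (MJ t c J).det = aeval t.x (NJ t.F c J).det := by
  rw [AlgHom.map_det]
  have h : (aeval t.x).mapMatrix (NJ t.F c J) =
      Matrix.of fun i k => (if i ∈ J then t.x i else 1) * MJ t c J i k := by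
    ext1 i k
    have := t.x_ne_zero i
    by_cases hi : i ∈ J
    · by_cases hik : i = k
      · subst hik
        simp only [AlgHom.mapMatrix_apply, Matrix.map_apply, NJ, MJ, Matrix.of_apply, if_pos hi,
          if_true]
        change t.f i = _
        field_simp
      · simp only [AlgHom.mapMatrix_apply, Matrix.map_apply, NJ, MJ, Matrix.of_apply, if_pos hi,
          if_neg hik, map_mul, map_neg, aeval_C, aeval_X]
        ring
    · simp only [AlgHom.mapMatrix_apply, Matrix.map_apply, NJ, MJ, Matrix.of_apply, if_neg hi]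
      split_ifs
      · simp
      · simp
  rw [h, Matrix.det_mul_column, Finset.prod_ite_mem, Finset.univ_inter]

theorem det_MJ_mem_U [IsDomain R] (t : Seed R n K) (c : Fin n → Fin n → R)
    (J : Finset (Fin n)) : (MJ t c J).det ∈ t.U := by
  refine det_mem_subring t.U.toSubring _ fun i k => ?_
  change _ ∈ t.U
  simp only [MJ, Matrix.of_apply]
  split_ifs
  · exact t.y_mem_U i
  · exact neg_mem (Subalgebra.algebraMap_mem _ _)
  · exact one_mem _
  · exact zero_mem _

/-- If `J` contains no nonempty closed homogeneous set then `D_J ≠ 0`. -/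
theorem det_MJ_ne_zero [IsDomain R] (t : Seed R n K) {a : Fin n → R} {c : Fin n → Fin n → R}
    (hF : ∀ i, t.F i = C (a i) + ∑ j ∈ Finset.univ.erase i, C (c i j) * X j)
    (J : Finset (Fin n)) (hJ : ∀ B ⊆ J, B.Nonempty → ¬ ClosedHom a c B) :
    (MJ t c J).det ≠ 0 := by
  intro h0
  have h := prod_mul_det_MJ t c J
  rw [h0, mul_zero] at h
  exact t.aeval_ne_zero (det_NJ_ne_zero hF J hJ) h.symm

end Pool.Agent.Helper98.LP
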