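import Pool.Agent.Helper98.LP.C3_CaseB
import Pool.Agent.Helper98.LP.D_Valuation
import Pool.Agent.Helper98.LP.E_Det

/-! Module F: every cluster variable divides one of finitely many elements. -/

set_option linter.unusedSectionVars false

open MvPolynomial

namespace Pool.Agent.Helper98.LP

variable {R : Type*} [CommRing R] [IsDomain R] [UniqueFactorizationMonoid R]
  {n : ℕ} {K : Type*} [Field K] [Algebra R K]

theorem f_eq_of_linear (t : Seed R n K) {a : Fin n → R} {c : Fin n → Fin n → R}
    (hF : ∀ i, t.F i = C (a i) + ∑ j ∈ Finset.univ.erase i, C (c i j) * X j) (i : Fin n) :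
    t.f i = algebraMap R K (a i) + ∑ j ∈ Finset.univ.erase i, algebraMap R K (c i j) * t.x j := by
  rw [Seed.f, hF i, map_add, aeval_C, map_sum]
  congr 1
  refine Finset.sum_congr rfl fun j _ => ?_
  rw [map_mul, aeval_C, aeval_X]

/-- a row of `M^J` times a vector -/
theorem MJ_mulVec (t : Seed R n K) (c : Fin n → Fin n → R) (J : Finset (Fin n))
    (w : Fin n → K) (i : Fin n) :
    (MJ t c J).mulVec w i = if i ∈ J then
      t.f i / t.x i * w i - ∑ k ∈ Finset.univ.erase i, algebraMap R K (c i k) * w k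
      else w i := by
  rw [Matrix.mulVec, dotProduct]
  by_cases hi : i ∈ J
  · rw [if_pos hi, ← Finset.add_sum_erase Finset.univ _ (Finset.mem_univ i), sub_eq_add_neg,
      ← Finset.sum_neg_distrib]
    congr 1
    · simp [MJ, hi]
    · refine Finset.sum_congr rfl fun k hk => ?_
      have : i ≠ k := (Finset.ne_of_mem_erase hk).symm
      simp [MJ, hi, this]
  · rw [if_neg hi, Finset.sum_eq_single i]
    · simp [MJ, hi]
    · intro k _ hk
      simp [MJ, hi, hk.symm]
    · simp

theorem MJ_mem_U (t : Seed R n K) (c : Fin n → Fin n → R) (J : Finset (Fin n)) (i k : Fin n) :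
    MJ t c J i k ∈ t.U := by
  simp only [MJ, Matrix.of_apply]
  split_ifs
  · exact t.y_mem_U i
  · exact neg_mem (Subalgebra.algebraMap_mem _ _)
  · exact one_mem _
  · exact zero_mem _

theorem MJ_le_one (t : Seed R n K) (c : Fin n → Fin n → R) (J : Finset (Fin n))
    (O : ValuationSubring K) (hR : ∀ r : R, O.valuation (algebraMap R K r) ≤ 1)
    (hY : ∀ i ∈ J, O.valuation (t.f i / t.x i) ≤ 1) (i k : Fin n) :
    O.valuation (MJ t c J i k) ≤ 1 := by
  simp only [MJ, Matrix.of_apply]
  split_ifs with h1 h2 h3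
  · exact hY i h1
  · rw [Valuation.map_neg]; exact hR _
  · rw [map_one]
  · rw [map_zero]; exact zero_le_one

/-- if `D_J = 0` and `v(x_k) > 1`, `v(Y_k) ≤ 1` on `J` -/
theorem block_case (t : Seed R n K) {a : Fin n → R} {c : Fin n → Fin n → R}
    (hF : ∀ i, t.F i = C (a i) + ∑ j ∈ Finset.univ.erase i, C (c i j) * X j)
    (O : ValuationSubring K) (hR : ∀ r : R, O.valuation (algebraMap R K r) ≤ 1)
    (J : Finset (Fin n)) (hD : (MJ t c J).det = 0)
    (hx : ∀ i ∈ J, 1 < O.valuation (t.x i)) (hY : ∀ i ∈ J, O.valuation (t.f i / t.x i) ≤ 1) :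
    ∃ (B : Finset (Fin n)) (k : Fin n), (MJ t c B).det ≠ 0 ∧
      (MJ t c B).det / t.x k ∈ t.U ∧ O.valuation ((MJ t c B).det / t.x k) < 1 := by
  classical
  have hex : ∃ B : Finset (Fin n), B ⊆ J ∧ B.Nonempty ∧ ClosedHom a c B := by
    by_contra h
    push Not at h
    exact det_MJ_ne_zero t hF J (fun B hB hne => h B hB hne) hD
  obtain ⟨B, hB⟩ := exists_minimal_of_wellFoundedLT
    (fun B : Finset (Fin n) => B ⊆ J ∧ B.Nonempty ∧ ClosedHom a c B) hex
  obtain ⟨⟨hBJ, ⟨k, hk⟩, hBc⟩, hmin⟩ := hB
  -- `B` has a second element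
  obtain ⟨l, hl, hlk⟩ : ∃ l ∈ B, l ≠ k := by
    by_contra h
    push Not at h
    apply (t.irreducible k).ne_zero
    rw [hF k, (hBc k hk).1, map_zero, zero_add]
    refine Finset.sum_eq_zero fun j hj => ?_
    rw [(hBc k hk).2 j fun hjB => Finset.ne_of_mem_erase hj (h j hjB), map_zero, zero_mul]
  have hne : (MJ t c (B.erase k)).det ≠ 0 := by
    refine det_MJ_ne_zero t hF _ fun B' hB' hne' hcl => ?_
    have hB'B : B' ⊆ B := hB'.trans (Finset.erase_subset _ _)
    have := hmin ⟨hB'B.trans hBJ, hne', hcl⟩ hB'B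
    exact (Finset.mem_erase.1 (hB' (this hk))).1 rfl
  have hsub : B.erase k ⊆ J := (Finset.erase_subset _ _).trans hBJ
  set M := MJ t c (B.erase k) with hM
  have hvx : 1 < O.valuation (t.x k) := hx k (hBJ hk)
  have hvx0 : O.valuation (t.x k) ≠ 0 := (lt_trans zero_lt_one hvx).ne'
  have hDle : O.valuation M.det ≤ 1 :=
    det_le_one O M (MJ_le_one t c _ O hR fun i hi => hY i (hsub hi))
  have hDU : M.det ∈ t.U := det_MJ_mem_U t c _
  refine ⟨B.erase k, k, hne, ?_, ?_⟩
  · have hDU' := Seed.mem_U.1 hDU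
    refine Seed.mem_U.2 ⟨?_, fun i => ?_⟩
    · rw [div_eq_mul_inv]; exact mul_mem hDU'.1 (inv_mem_Laur _ _)
    · by_cases hik : i = k
      · subst hik
        -- Cramer
        set xb : Fin n → K := fun m => if m ∈ B.erase i then t.x m else 0 with hxb
        set γ : Fin n → K := fun m => if m ∈ B.erase i then algebraMap R K (c m i) else 0 with hγ
        have h1 : M.mulVec xb = t.x i • γ := by
          funext m
          rw [hM, MJ_mulVec, Pi.smul_apply, smul_eq_mul]
          by_cases hm : m ∈ B.erase i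
          · rw [if_pos hm]
            have hmB := Finset.mem_erase.1 hm
            have hxm : xb m = t.x m := if_pos hm
            have hγm : γ m = algebraMap R K (c m i) := if_pos hm
            rw [hxm, hγm, div_mul_cancel₀ _ (t.x_ne_zero m), f_eq_of_linear t hF m,
              (hBc m hmB.2).1, map_zero, zero_add, ← Finset.sum_sub_distrib,
              ← Finset.add_sum_erase (Finset.univ.erase m) _
                (Finset.mem_erase.2 ⟨hmB.1.symm, Finset.mem_univ i⟩)]
            have hxi : xb i = 0 := if_neg (Finset.notMem_erase i B)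
            rw [hxi, Finset.sum_eq_zero]
            · ring
            · intro q hq
              rw [Finset.mem_erase, Finset.mem_erase] at hq
              by_cases hqB : q ∈ B
              · have : xb q = t.x q := if_pos (Finset.mem_erase.2 ⟨hq.1, hqB⟩)
                rw [this, sub_self]
              · rw [(hBc m hmB.2).2 q hqB, map_zero, zero_mul, zero_mul, sub_self]
          · rw [if_neg hm]
            have hxm : xb m = 0 := if_neg hm
            have hγm : γ m = 0 := if_neg hm
            rw [hxm, hγm, mul_zero]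
        have h2 := cramer_identity M xb l
        rw [h1, Matrix.mulVec_smul, Pi.smul_apply, smul_eq_mul] at h2
        have hxl : xb l = t.x l := if_pos (Finset.mem_erase.2 ⟨hlk, hl⟩)
        rw [hxl] at h2
        have hη : M.adjugate.mulVec γ l ∈ t.U := by
          rw [Matrix.mulVec, dotProduct]
          refine sum_mem fun q _ => mul_mem ?_ ?_
          · exact adjugate_mem_subring t.U.toSubring M (MJ_mem_U t c _) l q
          · by_cases hq : q ∈ B.erase i
            · have : γ q = algebraMap R K (c q i) := if_pos hq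
              rw [this]; exact Subalgebra.algebraMap_mem _ _
            · have : γ q = 0 := if_neg hq
              rw [this]; exact zero_mem _
        have e : M.det / t.x i = M.adjugate.mulVec γ l * (t.x l)⁻¹ := by
          have := t.x_ne_zero i
          have := t.x_ne_zero l
          field_simp
          rw [h2]
        rw [e]
        exact mul_mem ((Seed.mem_U.1 hη).2 i) (t.x_inv_mem_L hlk)
      · rw [div_eq_mul_inv]; exact mul_mem (hDU'.2 i) (t.x_inv_mem_L (Ne.symm hik))
  · rw [map_div₀, div_lt_one₀ (lt_trans zero_lt_one hvx)]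
    exact lt_of_le_of_lt hDle hvx

/-- Key theorem. `t0` linear, `t` any seed with the same `U`. -/
theorem key (t0 : Seed R n K) {a : Fin n → R} {c : Fin n → Fin n → R}
    (hF : ∀ i, t0.F i = C (a i) + ∑ j ∈ Finset.univ.erase i, C (c i j) * X j)
    (t : Seed R n K) (hU : t.U = t0.U) (j : Fin n) :
    (∃ i, t0.x i / t.x j ∈ t0.U) ∨
      ∃ J : Finset (Fin n), (MJ t0 c J).det ≠ 0 ∧ (MJ t0 c J).det / t.x j ∈ t0.U := by
  classical
  obtain ⟨O, hR, hdiv, y, hy, hvy⟩ := t.exists_valuation j
  rw [hU] at hdiv hy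
  by_cases hsmall : ∃ i, O.valuation (t0.x i) < 1
  · obtain ⟨i, hi⟩ := hsmall
    exact Or.inl ⟨i, hdiv _ (t0.x_mem_U i) hi⟩
  right
  push Not at hsmall
  obtain ⟨i0, -, hi0⟩ := Finset.exists_max_image (Finset.univ : Finset (Fin n))
    (fun i => O.valuation (t0.x i)) ⟨j, Finset.mem_univ j⟩
  -- the maximum is larger than one
  have hg : 1 < O.valuation (t0.x i0) := by
    by_contra hle
    push Not at hle
    let S : Subalgebra R K :=
      { O.toSubring with
        algebraMap_mem' := fun r => (O.valuation_le_one_iff _).1 (hR r) }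
    have hS : ∀ f, f ∈ S ↔ O.valuation f ≤ 1 := fun f => (O.valuation_le_one_iff f).symm
    have hle' : Laur R t0.x ≤ S := by
      refine Laur_le (fun k => ?_) fun k => ?_
      · rw [hS]; exact (hi0 k (Finset.mem_univ k)).trans hle
      · rw [hS, map_inv₀]
        exact inv_le_one_of_one_le₀ (hsmall k)
    have := (hS y).1 (hle' (Seed.mem_U.1 hy).1)
    exact absurd hvy (not_lt.2 this)
  have hg0 : O.valuation (t0.x i0) ≠ 0 := (lt_trans zero_lt_one hg).ne'
  set J : Finset (Fin n) := Finset.univ.filter fun i => O.valuation (t0.x i) = O.valuation (t0.x i0)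
    with hJ
  have hmemJ : ∀ i, i ∈ J ↔ O.valuation (t0.x i) = O.valuation (t0.x i0) := by
    intro i; rw [hJ, Finset.mem_filter]; simp
  have hY : ∀ i ∈ J, O.valuation (t0.f i / t0.x i) ≤ 1 := by
    intro i hi
    rw [hmemJ] at hi
    rw [map_div₀, hi, div_le_one₀ (lt_trans zero_lt_one hg), f_eq_of_linear t0 hF i]
    refine Valuation.map_add_le _ ((hR _).trans hg.le) (Valuation.map_sum_le _ fun k _ => ?_)
    rw [map_mul]
    calc _ ≤ 1 * O.valuation (t0.x i0) := mul_le_mul' (hR _) (hi0 k (Finset.mem_univ k))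
      _ = _ := one_mul _
  have hDlt : O.valuation (MJ t0 c J).det < 1 := by
    refine det_lt_one O _ (MJ_le_one t0 c J O hR hY) (fun k => t0.x k / t0.x i0) i0
      (div_self (t0.x_ne_zero i0)) fun i => ?_
    rw [MJ_mulVec]
    by_cases hi : i ∈ J
    · rw [if_pos hi]
      have e : t0.f i / t0.x i * (t0.x i / t0.x i0) -
          ∑ k ∈ Finset.univ.erase i, algebraMap R K (c i k) * (t0.x k / t0.x i0) =
          algebraMap R K (a i) / t0.x i0 := by
        have h1 : ∑ k ∈ Finset.univ.erase i, algebraMap R K (c i k) * (t0.x k / t0.x i0) =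
            (∑ k ∈ Finset.univ.erase i, algebraMap R K (c i k) * t0.x k) / t0.x i0 := by
          rw [Finset.sum_div]
          exact Finset.sum_congr rfl fun k _ => by ring
        have h2 : t0.f i / t0.x i * (t0.x i / t0.x i0) = t0.f i / t0.x i0 := by
          have := t0.x_ne_zero i
          field_simp
        rw [h1, h2, f_eq_of_linear t0 hF i]
        ring
      rw [e, map_div₀, div_lt_one₀ (lt_trans zero_lt_one hg)]
      exact lt_of_le_of_lt (hR _) hg
    · rw [if_neg hi, map_div₀, div_lt_one₀ (lt_trans zero_lt_one hg)]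
      rw [hmemJ] at hi
      exact lt_of_le_of_ne (hi0 i (Finset.mem_univ i)) hi
  by_cases hD : (MJ t0 c J).det = 0
  · obtain ⟨B, k, hB0, hBU, hBlt⟩ := block_case t0 hF O hR J hD
      (fun i hi => by rw [(hmemJ i).1 hi]; exact hg) hY
    refine ⟨B, hB0, ?_⟩
    have h1 := hdiv _ hBU hBlt
    have e : (MJ t0 c B).det / t.x j = t0.x k * ((MJ t0 c B).det / t0.x k / t.x j) := by
      have := t0.x_ne_zero k
      field_simp
    rw [e]
    exact mul_mem (t0.x_mem_U k) h1
  · exact ⟨J, hD, hdiv _ (det_MJ_mem_U t0 c J) hDlt⟩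

end Pool.Agent.Helper98.LP
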