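import Pool.Agent.Helper98.LP.B_Upper

/-! Module G: a nonzero element of `U` has finitely many divisors in `U` up to units of `R`. -/

set_option linter.unusedSectionVars false

open MvPolynomial

namespace Pool.Agent.Helper98.LP

variable {R : Type*} [CommRing R] [IsDomain R] [UniqueFactorizationMonoid R]
  {n : ℕ} {K : Type*} [Field K] [Algebra R K]

/-- in a unique factorization domain, an element has finitely many divisors up to units -/
theorem exists_finset_divisors {A : Type*} [CommRing A] [IsDomain A] [UniqueFactorizationMonoid A]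
    {N : A} (hN : N ≠ 0) : ∃ Z : Finset A, ∀ g, g ∣ N → ∃ g0 ∈ Z, Associated g0 g := by
  classical
  haveI : StrongNormalizationMonoid A := UniqueFactorizationMonoid.strongNormalizationMonoid
  refine ⟨(UniqueFactorizationMonoid.normalizedFactors N).powerset.toFinset.image
    Multiset.prod, fun g hg => ?_⟩
  have hg0 : g ≠ 0 := ne_zero_of_dvd_ne_zero hN hg
  refine ⟨(UniqueFactorizationMonoid.normalizedFactors g).prod, ?_,
    UniqueFactorizationMonoid.prod_normalizedFactors hg0⟩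
  rw [Finset.mem_image]
  refine ⟨UniqueFactorizationMonoid.normalizedFactors g, ?_, rfl⟩
  rw [Multiset.mem_toFinset, Multiset.mem_powerset]
  exact (UniqueFactorizationMonoid.dvd_iff_normalizedFactors_le_normalizedFactors hg0 hN).1 hg

theorem X_dvd_prod_pow {i : Fin n} {b : Fin n → ℕ}
    (h : (X i : MvPolynomial (Fin n) R) ∣ ∏ k, X k ^ b k) : b i ≠ 0 := by
  rw [Prime.dvd_finsetProd_iff X_prime] at h
  obtain ⟨k, -, hk⟩ := h
  by_cases hb : b k = 0
  · rw [hb, pow_zero] at hk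
    exact absurd (isUnit_of_dvd_one hk) (X_prime (i := i) (R := R)).not_unit
  · have h1 := X_prime.dvd_of_dvd_pow hk
    rw [X_dvd_X] at h1
    rw [h1]; exact hb

/-- uniqueness of the representation of a Laurent polynomial -/
theorem mono_le {x : Fin n → K} (hx : AlgebraicIndependent R x) {m m' : Fin n → ℤ}
    {g g' : MvPolynomial (Fin n) R} (hg' : ∀ i, ¬ X i ∣ g')
    (h : (∏ k, x k ^ m k) * aeval x g = (∏ k, x k ^ m' k) * aeval x g') (i : Fin n) :
    m i ≤ m' i := by
  by_contra hlt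
  push Not at hlt
  have hx0 : ∀ k, x k ≠ 0 := fun k => hx.ne_zero k
  have hinj : Function.Injective (aeval x : MvPolynomial (Fin n) R →ₐ[R] K) := hx
  have e1 : (∏ k, X k ^ (m k - m' k).toNat) * g =
      (∏ k, X k ^ (m' k - m k).toNat) * g' := by
    apply hinj
    simp only [map_mul, map_prod, map_pow, aeval_X]
    have h1 : ∀ k, x k ^ (m k - m' k).toNat =
        x k ^ m k * (x k ^ (min (m k) (m' k)))⁻¹ := by
      intro k
      rw [← zpow_natCast, ← zpow_neg, ← zpow_add₀ (hx0 k)]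
      congr 1
      omega
    have h2 : ∀ k, x k ^ (m' k - m k).toNat =
        x k ^ m' k * (x k ^ (min (m k) (m' k)))⁻¹ := by
      intro k
      rw [← zpow_natCast, ← zpow_neg, ← zpow_add₀ (hx0 k)]
      congr 1
      omega
    simp only [h1, h2, Finset.prod_mul_distrib]
    rw [mul_right_comm, h, mul_right_comm]
  have h3 : (X i : MvPolynomial (Fin n) R) ∣ (∏ k, X k ^ (m k - m' k).toNat) * g := by
    refine Dvd.dvd.mul_right ?_ _
    refine dvd_trans (dvd_pow_self _ ?_) (Finset.dvd_prod_of_mem _ (Finset.mem_univ i))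
    omega
  rw [e1] at h3
  rcases X_prime.dvd_or_dvd h3 with h4 | h4
  · apply X_dvd_prod_pow h4
    omega
  · exact hg' i h4

theorem mono_unique {x : Fin n → K} (hx : AlgebraicIndependent R x) {m m' : Fin n → ℤ}
    {g g' : MvPolynomial (Fin n) R} (hg : ∀ i, ¬ X i ∣ g) (hg' : ∀ i, ¬ X i ∣ g')
    (h : (∏ k, x k ^ m k) * aeval x g = (∏ k, x k ^ m' k) * aeval x g') :
    m = m' ∧ g = g' := by
  have hx0 : ∀ k, x k ≠ 0 := fun k => hx.ne_zero k
  have hinj : Function.Injective (aeval x : MvPolynomial (Fin n) R →ₐ[R] K) := hx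
  have hm : m = m' := by
    funext i
    exact le_antisymm (mono_le hx hg' h i) (mono_le hx hg h.symm i)
  refine ⟨hm, hinj ?_⟩
  rw [hm] at h
  exact mul_left_cancel₀ (Finset.prod_ne_zero_iff.2 fun k _ => zpow_ne_zero _ (hx0 k)) h

/-- a pole of `z ∈ U` along `x_i` is bounded -/
theorem pole_bound (t : Seed R n K) {i : Fin n} {m : Fin n → ℤ} {g : MvPolynomial (Fin n) R}
    (h : (∏ k, t.x k ^ m k) * aeval t.x g ∈ t.L i) {q : ℕ} (hq : m i = - (q : ℤ)) :
    t.F i ^ q ∣ aeval (Function.update X i 0) g := by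
  refine t.pole_dvd i g q ?_
  have h1 : (∏ k ∈ Finset.univ.erase i, t.x k ^ (- m k)) ∈ t.L i := prod_mem fun k hk =>
    zpow_mem_of_mem (t.x_mem_L i k) (t.x_inv_mem_L (Finset.ne_of_mem_erase hk)) _
  have e : aeval t.x g / t.x i ^ q = ((∏ k, t.x k ^ m k) * aeval t.x g) *
      ∏ k ∈ Finset.univ.erase i, t.x k ^ (- m k) := by
    have e2 : (∏ k ∈ Finset.univ.erase i, t.x k ^ m k) *
        ∏ k ∈ Finset.univ.erase i, t.x k ^ (- m k) = 1 := by
      rw [← Finset.prod_mul_distrib]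
      refine Finset.prod_eq_one fun k _ => ?_
      rw [← zpow_add₀ (t.x_ne_zero k), add_neg_cancel, zpow_zero]
    rw [← Finset.mul_prod_erase Finset.univ (fun k => t.x k ^ m k) (Finset.mem_univ i), hq,
      zpow_neg, zpow_natCast]
    calc aeval t.x g / t.x i ^ q = (t.x i ^ q)⁻¹ * aeval t.x g * 1 := by ring
      _ = _ := by rw [← e2]; ring
  rw [e]
  exact mul_mem h h1

theorem finite_divisors (t : Seed R n K) {D : K} (hD : D ∈ t.U) (hD0 : D ≠ 0) :
    ∃ Z : Finset K, ∀ z ∈ t.U, D / z ∈ t.U → z ≠ 0 →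
      ∃ z0 ∈ Z, ∃ u : Rˣ, z = algebraMap R K u * z0 := by
  classical
  obtain ⟨d, N, hN, hDN⟩ := exists_eq_monomial_mul t.x_ne_zero (Seed.mem_U.1 hD).1 hD0
  have hN0 : N ≠ 0 := by
    rintro rfl
    apply hD0
    rw [hDN, map_zero, mul_zero]
  obtain ⟨Z1, hZ1⟩ := exists_finset_divisors hN0
  -- bounds for the orders
  have hE : ∀ i, ∃ E : ℕ, ∀ q : ℕ,
      t.F i ^ q ∣ (aeval (Function.update X i (0 : MvPolynomial (Fin n) R)) N) → q ≤ E := by
    intro i
    have h0 : aeval (Function.update X i (0 : MvPolynomial (Fin n) R)) N ≠ 0 := by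
      rw [Ne, aeval_zero_eq_zero_iff]; exact hN i
    obtain ⟨E, hE⟩ := FiniteMultiplicity.of_not_isUnit (t.irreducible i).not_isUnit h0
    refine ⟨E, fun q hq => ?_⟩
    by_contra hlt
    push Not at hlt
    exact hE ((pow_dvd_pow _ hlt).trans hq)
  choose E hE using hE
  refine ⟨((Fintype.piFinset fun i => Finset.Icc (-(E i : ℤ)) (d i + E i)) ×ˢ Z1).image
    fun p => (∏ k, t.x k ^ p.1 k) * aeval t.x p.2, fun z hz hDz hz0 => ?_⟩
  have hDz0 : D / z ≠ 0 := div_ne_zero hD0 hz0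
  obtain ⟨m, g, hg, hmg⟩ := exists_eq_monomial_mul t.x_ne_zero (Seed.mem_U.1 hz).1 hz0
  obtain ⟨m', g', hg', hmg'⟩ := exists_eq_monomial_mul t.x_ne_zero (Seed.mem_U.1 hDz).1 hDz0
  have h1 : (∏ k, t.x k ^ (m k + m' k)) * aeval t.x (g * g') = (∏ k, t.x k ^ d k) * aeval t.x N := by
    rw [← hDN]
    have : D = z * (D / z) := by field_simp
    conv_rhs => rw [this, hmg', hmg]
    rw [map_mul]
    have h2 : ∏ k, t.x k ^ (m k + m' k) = (∏ k, t.x k ^ m k) * ∏ k, t.x k ^ m' k := by
      rw [← Finset.prod_mul_distrib]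
      exact Finset.prod_congr rfl fun k _ => zpow_add₀ (t.x_ne_zero k) _ _
    rw [h2]; ring
  obtain ⟨hmd, hgN⟩ := mono_unique t.algInd (fun i hi => by
    rcases X_prime.dvd_or_dvd hi with h | h
    · exact hg i h
    · exact hg' i h) hN h1
  have hb1 : ∀ i, -(E i : ℤ) ≤ m i := by
    intro i
    by_contra hlt
    push Not at hlt
    obtain ⟨q, hq⟩ := Int.eq_ofNat_of_zero_le (a := - m i) (by omega)
    have h2 := pole_bound t (i := i) (m := m) (g := g) (q := q)
      (by rw [← hmg]; exact (Seed.mem_U.1 hz).2 i) (by omega)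
    have h3 := hE i q (h2.trans (map_dvd _ ⟨g', hgN.symm⟩))
    omega
  have hb2 : ∀ i, -(E i : ℤ) ≤ m' i := by
    intro i
    by_contra hlt
    push Not at hlt
    obtain ⟨q, hq⟩ := Int.eq_ofNat_of_zero_le (a := - m' i) (by omega)
    have h2 := pole_bound t (i := i) (m := m') (g := g') (q := q)
      (by rw [← hmg']; exact (Seed.mem_U.1 hDz).2 i) (by omega)
    have h3 := hE i q (h2.trans (map_dvd _ ⟨g, by rw [← hgN]; ring⟩))
    omega
  obtain ⟨g0, hg0, w, hw⟩ := hZ1 g ⟨g', hgN.symm⟩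
  obtain ⟨r, hr, hr'⟩ := isUnit_iff_eq_C_of_isReduced.1 w.isUnit
  refine ⟨(∏ k, t.x k ^ m k) * aeval t.x g0, ?_, hr.unit, ?_⟩
  · rw [Finset.mem_image]
    refine ⟨(m, g0), ?_, rfl⟩
    rw [Finset.mem_product, Fintype.mem_piFinset]
    refine ⟨fun i => ?_, hg0⟩
    rw [Finset.mem_Icc]
    have := congrFun hmd i
    have h3 := hb1 i
    have h4 := hb2 i
    simp only at this ⊢
    constructor
    · omega
    · omega
  · rw [hmg, ← hw, map_mul, hr', aeval_C, IsUnit.unit_spec]
    ring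

end Pool.Agent.Helper98.LP
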