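import Pool.Agent.Helper98.LP.F_Key
import Pool.Agent.Helper98.LP.G_Divisors

/-! Module H: seeds are determined by their clusters; the final theorem. -/

set_option linter.unusedSectionVars false

open MvPolynomial

namespace Pool.Agent.Helper98.LP

variable {R : Type*} [CommRing R] [IsDomain R] [UniqueFactorizationMonoid R]
  {n : ℕ} {K : Type*} [Field K] [Algebra R K]

/-- scaling the variables by units -/
noncomputable def scale (u : Fin n → Rˣ) : MvPolynomial (Fin n) R →ₐ[R] MvPolynomial (Fin n) R :=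
  aeval fun k => C (u k : R) * X k

theorem scale_scale (u : Fin n → Rˣ) (P : MvPolynomial (Fin n) R) :
    scale (fun k => (u k)⁻¹) (scale u P) = P := by
  rw [scale, scale, comp_aeval_apply]
  have : (fun i => (aeval fun k => C (((u k)⁻¹ : Rˣ) : R) * X k)
      (C (u i : R) * X i : MvPolynomial (Fin n) R)) = X := by
    funext i
    rw [map_mul, aeval_X, aeval_C, algebraMap_eq, ← mul_assoc, ← C_mul, Units.mul_inv, C_1,
      one_mul]
  rw [this, aeval_X_left_apply]

/-- scaling as an equivalence -/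
noncomputable def scaleEquiv (u : Fin n → Rˣ) :
    MvPolynomial (Fin n) R ≃* MvPolynomial (Fin n) R where
  toFun := scale u
  invFun := scale fun k => (u k)⁻¹
  left_inv P := scale_scale u P
  right_inv P := by
    have := scale_scale (fun k => (u k)⁻¹) P
    simpa using this
  map_mul' P Q := map_mul _ P Q

theorem aeval_scale (u : Fin n → Rˣ) {x y : Fin n → K}
    (h : ∀ k, x k = algebraMap R K (u k) * y k) (P : MvPolynomial (Fin n) R) :
    aeval y (scale u P) = aeval x P := by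
  rw [scale, comp_aeval_apply]
  congr 2
  funext k
  rw [map_mul, aeval_X, aeval_C, h k]

theorem notMem_vars_scale (u : Fin n → Rˣ) {i : Fin n} {P : MvPolynomial (Fin n) R}
    (hi : i ∉ P.vars) : i ∉ (scale u P).vars := by
  have h1 : P ∈ supported R ({i}ᶜ : Set (Fin n)) := by
    rw [mem_supported]
    intro l hl
    rintro rfl
    exact hi hl
  have h2 : scale u P ∈ supported R ({i}ᶜ : Set (Fin n)) := by
    rw [supported_eq_adjoin_X] at h1
    have h3 : scale u P ∈ (Algebra.adjoin R (X '' ({i}ᶜ : Set (Fin n)))).map (scale u) :=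
      ⟨P, h1, rfl⟩
    rw [AlgHom.map_adjoin] at h3
    refine (Algebra.adjoin_le ?_ : _ ≤ supported R ({i}ᶜ : Set (Fin n))) h3
    rintro _ ⟨_, ⟨l, hl, rfl⟩, rfl⟩
    rw [scale, aeval_X]
    exact mul_mem (Subalgebra.algebraMap_mem _ _) (X_mem_supported.2 hl)
  rw [mem_supported] at h2
  intro hk
  exact h2 hk rfl

theorem equiv_of_cluster {t t' : Seed R n K} (hU : t.U = t'.U)
    (h : ∀ i, ∃ u : Rˣ, t.x i = algebraMap R K u * t'.x i) : Seed.Equiv t t' := by
  choose u hu using h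
  intro i
  refine ⟨⟨u i, hu i⟩, ?_⟩
  have h1 : aeval t'.x (scale u (t.F i)) = t.f i := aeval_scale u hu (t.F i)
  have h2 : aeval t'.x (scale u (t.F i)) / t'.x i ^ 1 ∈ t'.L i := by
    have h3 : t.f i / t.x i ∈ t'.L i := by
      have := t.y_mem_U i
      rw [hU] at this
      exact (Seed.mem_U.1 this).2 i
    have e : aeval t'.x (scale u (t.F i)) / t'.x i ^ 1 =
        algebraMap R K (u i) * (t.f i / t.x i) := by
      rw [h1, hu i, pow_one]
      have := unit_ne_zero (K := K) (u i)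
      have := t'.x_ne_zero i
      field_simp
    rw [e]
    exact mul_mem (Subalgebra.algebraMap_mem _ _) h3
  have h4 := t'.pole_dvd i _ 1 h2
  rw [pow_one, aeval_zero_of_notMem (notMem_vars_scale u (t.notMem_vars i))] at h4
  have h5 : Irreducible (scale u (t.F i)) :=
    (MulEquiv.irreducible_iff (scaleEquiv u)).2 (t.irreducible i)
  obtain ⟨w, hw⟩ := (t'.irreducible i).associated_of_dvd h5 h4
  obtain ⟨r, hr, hr'⟩ := isUnit_iff_eq_C_of_isReduced.1 w.isUnit
  refine ⟨hr.unit, ?_⟩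
  change t.f i = _
  rw [← h1, ← hw, map_mul, hr', aeval_C, mul_comm]
  rfl

theorem LPAlgebra.U_eq (A : LPAlgebra R n K) {t t' : Seed R n K} (ht : t ∈ A.seeds)
    (ht' : t' ∈ A.seeds) : t.U = t'.U := by
  have h := A.connected t ht t' ht'
  clear ht ht'
  induction h with
  | rel s s' h =>
    obtain ⟨hs, i, rfl⟩ := h
    exact (A.isMutation s hs i).U_eq
  | refl s => rfl
  | symm s s' _ ih => exact ih.symm
  | trans s s' s'' _ _ ih1 ih2 => exact ih1.trans ih2

theorem finite_type (A : LPAlgebra R n K) (hA : A.IsLinear) : A.IsFiniteType := by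
  classical
  obtain ⟨hN, t0, ht0, a, c, hF⟩ := hA
  -- the finite set of test elements
  have hdiv : ∀ D : K, ∃ Z : Finset K, D ∈ t0.U → D ≠ 0 → ∀ z ∈ t0.U, D / z ∈ t0.U → z ≠ 0 →
      ∃ z0 ∈ Z, ∃ u : Rˣ, z = algebraMap R K u * z0 := by
    intro D
    by_cases h : D ∈ t0.U ∧ D ≠ 0
    · obtain ⟨Z, hZ⟩ := finite_divisors t0 h.1 h.2
      exact ⟨Z, fun _ _ => hZ⟩
    · exact ⟨∅, fun h1 h2 => absurd ⟨h1, h2⟩ h⟩
  choose Z hZ using hdiv
  set W : Finset K := (Finset.univ.biUnion fun i => Z (t0.x i)) ∪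
    Finset.univ.biUnion fun J : Finset (Fin n) => Z (MJ t0 c J).det with hW
  have key1 : ∀ t ∈ A.seeds, ∀ j, ∃ z0 ∈ W, ∃ u : Rˣ, t.x j = algebraMap R K u * z0 := by
    intro t ht j
    have hU : t.U = t0.U := A.U_eq ht ht0
    have hmem : t.x j ∈ t0.U := hU ▸ t.x_mem_U j
    rcases key t0 hF t hU j with ⟨i, hi⟩ | ⟨J, hJ0, hJ⟩
    · obtain ⟨z0, hz0, u, hu⟩ := hZ (t0.x i) (t0.x_mem_U i) (t0.x_ne_zero i) _ hmem hi
        (t.x_ne_zero j)
      exact ⟨z0, Finset.mem_union_left _ (Finset.mem_biUnion.2 ⟨i, Finset.mem_univ _, hz0⟩), u, hu⟩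
    · obtain ⟨z0, hz0, u, hu⟩ := hZ (MJ t0 c J).det (det_MJ_mem_U t0 c J) hJ0 _ hmem hJ
        (t.x_ne_zero j)
      exact ⟨z0, Finset.mem_union_right _ (Finset.mem_biUnion.2 ⟨J, Finset.mem_univ _, hz0⟩),
        u, hu⟩
  have key2 : ∀ t : Seed R n K, ∃ ρ : Fin n → K, t ∈ A.seeds → ∀ j, ρ j ∈ W ∧
      ∃ u : Rˣ, t.x j = algebraMap R K u * ρ j := by
    intro t
    by_cases ht : t ∈ A.seeds
    · choose ρ h1 h2 using key1 t ht
      exact ⟨ρ, fun _ j => ⟨h1 j, h2 j⟩⟩
    · exact ⟨0, fun h => absurd h ht⟩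
  choose ρ hρ using key2
  refine Set.Finite.of_finite_image (f := ρ) ?_ ?_
  · refine (Fintype.piFinset fun _ : Fin n => W).finite_toSet.subset ?_
    rintro _ ⟨t, ht, rfl⟩
    rw [Finset.mem_coe, Fintype.mem_piFinset]
    exact fun j => (hρ t ht j).1
  · intro t ht t' ht' he
    refine hN t ht t' ht' (equiv_of_cluster (A.U_eq ht ht') fun j => ?_)
    obtain ⟨-, u, hu⟩ := hρ t ht j
    obtain ⟨-, v, hv⟩ := hρ t' ht' j
    refine ⟨u * v⁻¹, ?_⟩
    rw [hu, hv, he, Units.val_mul, map_mul, ← unit_inv, mul_assoc,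
      inv_mul_cancel_left₀ (unit_ne_zero v)]

end Pool.Agent.Helper98.LP
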